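import Mathlib
import Pool.Agent.GT.Defs

/-!
# GTC: definitions (generic times with a commuting transformation, MP_4d8f14_an)

Paper proof: note 3146 of helper18 on MP_4d8f14_an.
-/

namespace Pool.Agent.GTC

open MeasureTheory Pool.Agent.GT

/-- `S` preserves `μ` (with its inverse) and commutes with the flow -/
structure Comm {X : Type*} [MeasurableSpace X] (μ : Measure X) (φ : ℝ → X → X) (S : Equiv.Perm X) : Prop where
  mp : MeasurePreserving S μ μ
  mp' : MeasurePreserving S.symm μ μ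
  comm : ∀ t x, φ t (S x) = S (φ t x)

/-- the sequence of times `p` grows like `n^d` in a regular way -/
structure Times (d : ℕ) (c : ℝ) (N0 : ℕ) (p : ℕ → ℝ) : Prop where
  hd : 1 ≤ d
  c_pos : 0 < c
  c_le : c ≤ 1
  lower : ∀ N n : ℕ, N0 ≤ N → N < n → n ≤ 2 * N → c * (N : ℝ) ^ d ≤ p n
  upper : ∀ N n : ℕ, N0 ≤ N → N < n → n ≤ 2 * N → p n ≤ c⁻¹ * (N : ℝ) ^ d
  incr : ∀ N n h : ℕ, N0 ≤ N → N < n → 1 ≤ h → n + h ≤ 2 * N → c * h * (N : ℝ) ^ (d - 1) ≤ p (n + h) - p n
  ratio : ∀ N n n' h : ℕ, N0 ≤ N → N < n → n < n' → 1 ≤ h → n' + h ≤ 2 * N →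
    c * ((n' : ℝ) - n) * h / (N : ℝ) ^ 2 ≤ p (n + h) / p n - p (n' + h) / p n'

section
variable {X : Type*} [MeasurableSpace X] {μ : Measure X} {φ : ℝ → X → X} {S : Equiv.Perm X}

theorem Comm.meas (h : Comm μ φ S) : Measurable S := h.mp.measurable

theorem Comm.meas' (h : Comm μ φ S) : Measurable S.symm := h.mp'.measurable

theorem Comm.comm' (h : Comm μ φ S) (t : ℝ) (x : X) : φ t (S.symm x) = S.symm (φ t x) := by
  rw [Equiv.eq_symm_apply, ← h.comm, Equiv.apply_symm_apply]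

theorem Comm.symm (h : Comm μ φ S) : Comm μ φ S.symm :=
  ⟨h.mp', by simpa using h.mp, h.comm'⟩

theorem Comm.scale (h : Comm μ φ S) (c : ℝ) : Comm μ (fun t => φ (c * t)) S := ⟨h.mp, h.mp', fun _ x => h.comm _ x⟩

theorem Comm.rev (h : Comm μ φ S) : Comm μ (rev φ) S := ⟨h.mp, h.mp', fun _ x => h.comm _ x⟩

theorem Comm.pow (h : Comm μ φ S) (n : ℕ) : Comm μ φ (S ^ n) := by
  induction n with
  | zero => exact ⟨MeasurePreserving.id μ, MeasurePreserving.id μ, fun t x => rfl⟩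
  | succ n ih =>
    refine ⟨?_, ?_, fun t x => ?_⟩
    · rw [pow_succ']
      exact h.mp.comp ih.mp
    · have : (S ^ (n + 1)).symm = (S ^ n).symm * S.symm := by
        rw [pow_succ']
        rfl
      rw [this]
      exact ih.mp'.comp h.mp'
    · rw [pow_succ', Equiv.Perm.mul_apply, h.comm, ih.comm, Equiv.Perm.mul_apply]

theorem Comm.zpow (h : Comm μ φ S) (n : ℤ) : Comm μ φ (S ^ n) := by
  cases n with
  | ofNat n => exact h.pow n
  | negSucc n =>
    have := (h.pow (n + 1)).symm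
    rw [zpow_negSucc]
    exact this

theorem zpow_mp (h : Comm μ φ S) (n : ℤ) : MeasurePreserving (S ^ n) μ μ := (h.zpow n).mp

end

end Pool.Agent.GTC
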