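import Mathlib
import Pool.Agent.GTC.TDefs

/-!
# GTC/Dy: dyadic blocks of `f - Kop U f` (interface; proof in the modules of helper18)
-/

namespace Pool.Agent.GTC

open MeasureTheory Filter Topology Pool.Agent.GT

theorem dy {d : ℕ} {c : ℝ} {N0 : ℕ} {p : ℕ → ℝ} (hp : Times d c N0 p) {X : Type*} [MeasurableSpace X]
    {μ : Measure X} [IsFiniteMeasure μ] {φ : ℝ → X → X} (hφ : IsFlow μ φ) {S : Equiv.Perm X} (hS : Comm μ φ S)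
    {f : X → ℂ} {B L : ℝ} (hf : Nice φ B L f) (hL : 0 ≤ L)
    {a : ℕ → X → ℂ} (ha : ∀ n, Measurable (a n)) (ha1 : ∀ n x, ‖a n x‖ ≤ 1)
    {I : ℕ → Finset ℕ} (hI : ∀ k, ∀ n ∈ I k, 2 ^ k < n ∧ n ≤ 2 * 2 ^ k) :
    ∀ᵐ q ∂(μ.prod (volume.restrict (Set.Icc (1 : ℝ) 2))), Tendsto (fun k : ℕ => ((2 ^ k : ℕ) : ℂ)⁻¹ *
      ∑ n ∈ I k, a n q.1 * (f (φ (q.2 * p n) ((S ^ n) q.1)) -
        Kop φ (((2 ^ k : ℕ) : ℝ) ^ d) f (φ (q.2 * p n) ((S ^ n) q.1)))) atTop (𝓝 0) := by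
  sorry

end Pool.Agent.GTC
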