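import Mathlib
import Pool.Agent.GT.Defs
import Pool.Agent.GT.Ext

/-!
# GTC/ExtC: extension from a countable dense family to all bounded functions

A modification of `GT/Ext.lean` (helper18): the limits are now conditional expectations evaluated at `R i n x`.

Replace `h i` by `h' i` measurable, everywhere bounded by a natural number `B ≥ 1`, equal almost everywhere; `μ[h i | m i]` by `H' i` measurable, everywhere bounded by `B`, equal almost everywhere to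
`μ[h i | m i]` and to `μ[h' i | m i]`; for almost every `x` nothing changes at any of the points `T i n x`, `R i n x` (countably many, measure preserving).  Choose `l ↦ (m_l i)` with
`∫⁻ ‖h' i - D i B (m_l i)‖ₑ² ≤ 4^(-l)`; then also `∫⁻ ‖H' i - Ds i B (m_l i)‖ₑ² ≤ 4^(-l)` (the conditional expectation is a contraction of `L²`).  With
`M_i^l(x) = ⨆_N (2N+1)⁻¹ ∑_{|n| ≤ N} ‖(h' i - D i B (m_l i))(T i n x)‖ₑ` and `N_i^l(x)` the same with `H' i - Ds i B (m_l i)` and `R i n x`: `∑_l ∫⁻ ((M_i^l)² + (N_i^l)²) < ∞`, so both tend to zero for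
almost every `x`.  `‖∏ u_i - ∏ v_i‖ ≤ B^r ∑ ‖u_i - v_i‖` for numbers bounded by `B ≥ 1`: the average of `a_n (∏ h' i (T i n x) - ∏ H' i (R i n x))` differs from that of
`a_n (∏ D i B (m_l i) (T i n x) - ∏ Ds i B (m_l i) (R i n x))` (which tends to zero) by at most `C B^r ∑_i (M_i^l(x) + N_i^l(x))`.  Let `l → ∞`.
-/

namespace Pool.Agent.GTC

open MeasureTheory Filter Topology Pool.Agent.GT

private lemma Ext_enorm_prod_le {r : ℕ} {B : ENNReal} (v : Fin r → ℂ) (hv : ∀ i, ‖v i‖ₑ ≤ B) :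
    ‖∏ i, v i‖ₑ ≤ B ^ r := by
  induction r with
  | zero => simp
  | succ r ih =>
    rw [Fin.prod_univ_succ, enorm_mul, pow_succ']
    exact mul_le_mul' (hv 0) (ih (fun i => v i.succ) fun i => hv i.succ)

private lemma Ext_prod {r : ℕ} {B : ENNReal} (hB : 1 ≤ B) (u v : Fin r → ℂ) (hu : ∀ i, ‖u i‖ₑ ≤ B)
    (hv : ∀ i, ‖v i‖ₑ ≤ B) : ‖∏ i, u i - ∏ i, v i‖ₑ ≤ B ^ r * ∑ i, ‖u i - v i‖ₑ := by
  induction r with
  | zero => simp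
  | succ r ih =>
    rw [Fin.prod_univ_succ, Fin.prod_univ_succ, Fin.sum_univ_succ]
    have h1 : u 0 * ∏ i : Fin r, u i.succ - v 0 * ∏ i : Fin r, v i.succ =
        u 0 * (∏ i : Fin r, u i.succ - ∏ i : Fin r, v i.succ) +
          (u 0 - v 0) * ∏ i : Fin r, v i.succ := by ring
    rw [h1]
    refine (enorm_add_le _ _).trans ?_
    rw [enorm_mul, enorm_mul]
    have h2 : ‖u 0‖ₑ * ‖∏ i : Fin r, u i.succ - ∏ i : Fin r, v i.succ‖ₑ ≤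
        B ^ (r + 1) * ∑ i : Fin r, ‖u i.succ - v i.succ‖ₑ := by
      rw [pow_succ', mul_assoc]
      exact mul_le_mul' (hu 0) (ih _ _ (fun i => hu i.succ) fun i => hv i.succ)
    have h3 : ‖u 0 - v 0‖ₑ * ‖∏ i : Fin r, v i.succ‖ₑ ≤ B ^ (r + 1) * ‖u 0 - v 0‖ₑ := by
      rw [mul_comm]
      refine mul_le_mul' ((Ext_enorm_prod_le _ fun i => hv i.succ).trans ?_) le_rfl
      exact pow_le_pow_right₀ hB (Nat.le_succ r)
    calc _ ≤ _ := add_le_add h2 h3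
      _ = _ := by rw [← mul_add, add_comm (∑ i : Fin r, ‖u i.succ - v i.succ‖ₑ)]

private lemma Ext_avg (N : ℕ) (f g : ℤ → ℂ) :
    ‖((2 * N + 1 : ℕ) : ℂ)⁻¹ * ∑ n ∈ Finset.Icc (-(N : ℤ)) N, f n -
      ((2 * N + 1 : ℕ) : ℂ)⁻¹ * ∑ n ∈ Finset.Icc (-(N : ℤ)) N, g n‖ₑ ≤
      ((2 * N + 1 : ℕ) : ENNReal)⁻¹ * ∑ n ∈ Finset.Icc (-(N : ℤ)) (N : ℤ), ‖f n - g n‖ₑ := by
  rw [← mul_sub, ← Finset.sum_sub_distrib, enorm_mul]
  have h1 : ‖((2 * N + 1 : ℕ) : ℂ)⁻¹‖ₑ = ((2 * N + 1 : ℕ) : ENNReal)⁻¹ := by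
    rw [enorm_inv (by exact_mod_cast Nat.succ_ne_zero (2 * N))]
    congr 1
    rw [← ofReal_norm, Complex.norm_natCast, ENNReal.ofReal_natCast]
  rw [h1]
  exact mul_le_mul' le_rfl (enorm_sum_le _ _)

private lemma Ext_ae {X : Type*} [MeasurableSpace X] {μ : Measure X} {T : ℤ → X → X}
    (hT : ∀ n, MeasurePreserving (T n) μ μ) {C : NNReal}
    (hmax : ∀ v : X → ENNReal, Measurable v →
      ∫⁻ x, (⨆ N : ℕ, ((2 * N + 1 : ℕ) : ENNReal)⁻¹ * ∑ n ∈ Finset.Icc (-(N : ℤ)) (N : ℤ), v (T n x)) ^ 2 ∂μ ≤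
        C * ∫⁻ x, v x ^ 2 ∂μ)
    {E : ℕ → X → ENNReal} (hE : ∀ l, Measurable (E l))
    (hEb : ∀ l, ∫⁻ x, E l x ^ 2 ∂μ ≤ ENNReal.ofReal ((1 / 2) ^ l)) :
    ∀ᵐ x ∂μ, Tendsto (fun l => ⨆ N : ℕ, ((2 * N + 1 : ℕ) : ENNReal)⁻¹ *
      ∑ n ∈ Finset.Icc (-(N : ℤ)) (N : ℤ), E l (T n x)) atTop (𝓝 0) := by
  have hmeas : ∀ l, Measurable (fun x => ⨆ N : ℕ, ((2 * N + 1 : ℕ) : ENNReal)⁻¹ *
      ∑ n ∈ Finset.Icc (-(N : ℤ)) (N : ℤ), E l (T n x)) := fun l =>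
    Measurable.iSup fun N => (Finset.measurable_fun_sum _ fun n _ =>
      (hE l).comp (hT n).measurable).const_mul _
  have h1 : ∫⁻ x, ∑' l : ℕ, (⨆ N : ℕ, ((2 * N + 1 : ℕ) : ENNReal)⁻¹ *
      ∑ n ∈ Finset.Icc (-(N : ℤ)) (N : ℤ), E l (T n x)) ^ 2 ∂μ ≠ ⊤ := by
    rw [lintegral_tsum fun l => ((hmeas l).pow_const 2).aemeasurable]
    have h2 : ∑' l : ℕ, ∫⁻ x, (⨆ N : ℕ, ((2 * N + 1 : ℕ) : ENNReal)⁻¹ *
        ∑ n ∈ Finset.Icc (-(N : ℤ)) (N : ℤ), E l (T n x)) ^ 2 ∂μ ≤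
        ∑' l : ℕ, (C : ENNReal) * ENNReal.ofReal ((1 / 2) ^ l) :=
      ENNReal.tsum_le_tsum fun l => (hmax _ (hE l)).trans (mul_le_mul' le_rfl (hEb l))
    refine ne_top_of_le_ne_top ?_ h2
    rw [ENNReal.tsum_mul_left]
    refine ENNReal.mul_ne_top ENNReal.coe_ne_top ?_
    have h3 : ∑' l : ℕ, ENNReal.ofReal ((1 / 2) ^ l) = ENNReal.ofReal (∑' l : ℕ, (1 / 2 : ℝ) ^ l) :=
      (ENNReal.ofReal_tsum_of_nonneg (fun l => by positivity) summable_geometric_two).symm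
    rw [h3]
    exact ENNReal.ofReal_ne_top
  filter_upwards [ae_lt_top (Measurable.tsum fun l => (hmeas l).pow_const 2) h1] with x hx
  have h4 := ENNReal.tendsto_atTop_zero_of_tsum_ne_top hx.ne
  rw [ENNReal.tendsto_nhds_zero] at h4 ⊢
  intro ε hε
  filter_upwards [h4 (ε ^ 2) (by positivity)] with l hl
  by_contra h5
  rw [not_le] at h5
  exact absurd hl (not_le.2 (ENNReal.pow_lt_pow_left two_ne_zero h5))

private lemma Ext_repr {X : Type*} [MeasurableSpace X] {μ : Measure X} {h : X → ℂ}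
    (hh : MemLp h ⊤ μ) : ∃ (B : ℕ) (h' : X → ℂ), Measurable h' ∧ (∀ x, ‖h' x‖ ≤ B) ∧ h =ᵐ[μ] h' := by
  obtain ⟨B, hB⟩ := exists_nat_ge (eLpNormEssSup h μ).toReal
  have hfin : eLpNormEssSup h μ ≠ ⊤ := by
    have := hh.2
    rw [eLpNorm_exponent_top] at this
    exact this.ne
  have hb : ∀ᵐ x ∂μ, ‖h x‖ ≤ B := by
    filter_upwards [ae_le_eLpNormEssSup (f := h) (μ := μ)] with x hx
    refine le_trans ?_ hB
    rw [← toReal_enorm]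
    exact ENNReal.toReal_mono hfin hx
  have hg : Measurable (hh.1.mk h) := hh.1.stronglyMeasurable_mk.measurable
  refine ⟨B, {x | ‖hh.1.mk h x‖ ≤ B}.indicator (hh.1.mk h), ?_, ?_, ?_⟩
  · exact hg.indicator (measurableSet_le hg.norm measurable_const)
  · intro x
    by_cases hx : x ∈ {x | ‖hh.1.mk h x‖ ≤ B}
    · rw [Set.indicator_of_mem hx]; exact hx
    · rw [Set.indicator_of_notMem hx, norm_zero]; positivity
  · filter_upwards [hb, hh.1.ae_eq_mk] with x h1 h2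
    rw [Set.indicator_of_mem, h2]
    show ‖hh.1.mk h x‖ ≤ B
    rwa [← h2]


private lemma Ext_two {r : ℕ} {B C : ENNReal} (hB : 1 ≤ B) (hBt : B ≠ ⊤) (hCt : C ≠ ⊤) {a : ℤ → ℂ}
    (ha : ∀ n, ‖a n‖ₑ ≤ C) {u H : Fin r → ℤ → ℂ} {v dl : ℕ → Fin r → ℤ → ℂ}
    {M M1 : ℕ → Fin r → ENNReal}
    (hu : ∀ i n, ‖u i n‖ₑ ≤ B) (hH : ∀ i n, ‖H i n‖ₑ ≤ B) (hv : ∀ l i n, ‖v l i n‖ₑ ≤ B)
    (hdl : ∀ l i n, ‖dl l i n‖ₑ ≤ B)
    (hM : ∀ l i (N : ℕ), ((2 * N + 1 : ℕ) : ENNReal)⁻¹ *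
      ∑ n ∈ Finset.Icc (-(N : ℤ)) (N : ℤ), ‖u i n - v l i n‖ₑ ≤ M l i)
    (hM1 : ∀ l i (N : ℕ), ((2 * N + 1 : ℕ) : ENNReal)⁻¹ *
      ∑ n ∈ Finset.Icc (-(N : ℤ)) (N : ℤ), ‖H i n - dl l i n‖ₑ ≤ M1 l i)
    (hM0 : ∀ i, Tendsto (fun l => M l i) atTop (𝓝 0))
    (hM10 : ∀ i, Tendsto (fun l => M1 l i) atTop (𝓝 0))
    (hconv : ∀ l, Tendsto (fun N : ℕ => ((2 * N + 1 : ℕ) : ℂ)⁻¹ *
      ∑ n ∈ Finset.Icc (-(N : ℤ)) N, a n * (∏ i, v l i n - ∏ i, dl l i n)) atTop (𝓝 0)) :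
    Tendsto (fun N : ℕ => ((2 * N + 1 : ℕ) : ℂ)⁻¹ *
      ∑ n ∈ Finset.Icc (-(N : ℤ)) N, a n * (∏ i, u i n - ∏ i, H i n)) atTop (𝓝 0) := by
  have key : ∀ l N : ℕ, ‖((2 * N + 1 : ℕ) : ℂ)⁻¹ *
      ∑ n ∈ Finset.Icc (-(N : ℤ)) N, a n * (∏ i, u i n - ∏ i, H i n)‖ₑ ≤
      ‖((2 * N + 1 : ℕ) : ℂ)⁻¹ *
        ∑ n ∈ Finset.Icc (-(N : ℤ)) N, a n * (∏ i, v l i n - ∏ i, dl l i n)‖ₑ +
      C * B ^ r * ∑ i, (M l i + M1 l i) := by
    intro l N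
    have h1 := Ext_avg N (fun n => a n * (∏ i, u i n - ∏ i, H i n))
      (fun n => a n * (∏ i, v l i n - ∏ i, dl l i n))
    have h2 : ((2 * N + 1 : ℕ) : ENNReal)⁻¹ * ∑ n ∈ Finset.Icc (-(N : ℤ)) (N : ℤ),
        ‖a n * (∏ i, u i n - ∏ i, H i n) - a n * (∏ i, v l i n - ∏ i, dl l i n)‖ₑ ≤
        C * B ^ r * ∑ i, (M l i + M1 l i) := by
      have h3 : ∀ n, ‖a n * (∏ i, u i n - ∏ i, H i n) - a n * (∏ i, v l i n - ∏ i, dl l i n)‖ₑ ≤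
          C * B ^ r * ∑ i, (‖u i n - v l i n‖ₑ + ‖H i n - dl l i n‖ₑ) := by
        intro n
        have h4 : a n * (∏ i, u i n - ∏ i, H i n) - a n * (∏ i, v l i n - ∏ i, dl l i n) =
            a n * ((∏ i, u i n - ∏ i, v l i n) - (∏ i, H i n - ∏ i, dl l i n)) := by ring
        rw [h4, enorm_mul, mul_assoc]
        refine mul_le_mul' (ha n) (enorm_sub_le.trans ?_)
        rw [Finset.sum_add_distrib, mul_add]
        exact add_le_add (Ext_prod hB _ _ (fun i => hu i n) fun i => hv l i n)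
          (Ext_prod hB _ _ (fun i => hH i n) fun i => hdl l i n)
      calc ((2 * N + 1 : ℕ) : ENNReal)⁻¹ * ∑ n ∈ Finset.Icc (-(N : ℤ)) (N : ℤ),
          ‖a n * (∏ i, u i n - ∏ i, H i n) - a n * (∏ i, v l i n - ∏ i, dl l i n)‖ₑ
          ≤ ((2 * N + 1 : ℕ) : ENNReal)⁻¹ * ∑ n ∈ Finset.Icc (-(N : ℤ)) (N : ℤ),
            C * B ^ r * ∑ i, (‖u i n - v l i n‖ₑ + ‖H i n - dl l i n‖ₑ) :=
            mul_le_mul' le_rfl (Finset.sum_le_sum fun n _ => h3 n)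
        _ = C * B ^ r * ∑ i, (((2 * N + 1 : ℕ) : ENNReal)⁻¹ *
              ∑ n ∈ Finset.Icc (-(N : ℤ)) (N : ℤ), ‖u i n - v l i n‖ₑ +
              ((2 * N + 1 : ℕ) : ENNReal)⁻¹ *
              ∑ n ∈ Finset.Icc (-(N : ℤ)) (N : ℤ), ‖H i n - dl l i n‖ₑ) := by
            rw [← Finset.mul_sum, Finset.sum_comm, mul_left_comm]
            congr 1
            rw [Finset.mul_sum]
            refine Finset.sum_congr rfl fun i _ => ?_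
            rw [Finset.sum_add_distrib, mul_add]
        _ ≤ C * B ^ r * ∑ i, (M l i + M1 l i) :=
            mul_le_mul' le_rfl (Finset.sum_le_sum fun i _ => add_le_add (hM l i N) (hM1 l i N))
    calc ‖((2 * N + 1 : ℕ) : ℂ)⁻¹ *
          ∑ n ∈ Finset.Icc (-(N : ℤ)) N, a n * (∏ i, u i n - ∏ i, H i n)‖ₑ
        = ‖((2 * N + 1 : ℕ) : ℂ)⁻¹ *
          ∑ n ∈ Finset.Icc (-(N : ℤ)) N, a n * (∏ i, v l i n - ∏ i, dl l i n) +
          (((2 * N + 1 : ℕ) : ℂ)⁻¹ *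
          ∑ n ∈ Finset.Icc (-(N : ℤ)) N, a n * (∏ i, u i n - ∏ i, H i n) -
          ((2 * N + 1 : ℕ) : ℂ)⁻¹ *
          ∑ n ∈ Finset.Icc (-(N : ℤ)) N, a n * (∏ i, v l i n - ∏ i, dl l i n))‖ₑ := by
          rw [add_sub_cancel]
      _ ≤ _ := (enorm_add_le _ _).trans (add_le_add le_rfl (h1.trans h2))
  rw [tendsto_zero_iff_enorm_tendsto_zero, ENNReal.tendsto_nhds_zero]
  intro ε hε
  have hK : Tendsto (fun l => C * B ^ r * ∑ i, (M l i + M1 l i)) atTop (𝓝 0) := by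
    have h1 : Tendsto (fun l => ∑ i, (M l i + M1 l i)) atTop (𝓝 (∑ i : Fin r, (0 + 0))) :=
      tendsto_finsetSum _ fun i _ => (hM0 i).add (hM10 i)
    have h2 := ENNReal.Tendsto.const_mul (a := C * B ^ r) h1
      (Or.inr (ENNReal.mul_ne_top hCt (ENNReal.pow_ne_top hBt)))
    simpa using h2
  have hε2 : 0 < ε / 2 := ENNReal.div_pos hε.ne' (by norm_num)
  obtain ⟨l, hl⟩ := (hK.eventually_lt_const hε2).exists
  have h3 := (tendsto_zero_iff_enorm_tendsto_zero.1 (hconv l)).eventually_lt_const hε2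
  filter_upwards [h3] with N hN
  calc _ ≤ _ := key l N
    _ ≤ ε / 2 + ε / 2 := add_le_add hN.le hl.le
    _ = ε := ENNReal.add_halves ε

/-- an everywhere bounded measurable representative of the conditional expectation -/
private lemma Ext_cond {X : Type*} {m : MeasurableSpace X} [mX : MeasurableSpace X] {μ : Measure X} [IsFiniteMeasure μ]
    (hm : m ≤ mX) {h : X → ℂ} {B : ℕ} (hb : ∀ x, ‖h x‖ ≤ B) :
    ∃ H : X → ℂ, Measurable H ∧ (∀ x, ‖H x‖ ≤ B) ∧ μ[h | m] =ᵐ[μ] H := by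
  have hg : Measurable (μ[h | m]) :=
    (stronglyMeasurable_condExp (m := m) (μ := μ) (f := h)).measurable.mono hm le_rfl
  have hbd : ∀ᵐ x ∂μ, ‖(μ[h | m]) x‖ ≤ B :=
    ae_bdd_norm_condExp_of_ae_bdd_norm (Eventually.of_forall hb)
  refine ⟨{x | ‖(μ[h | m]) x‖ ≤ B}.indicator (μ[h | m]), ?_, ?_, ?_⟩
  · exact hg.indicator (measurableSet_le hg.norm measurable_const)
  · intro x
    by_cases hx : x ∈ {x | ‖(μ[h | m]) x‖ ≤ B}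
    · rw [Set.indicator_of_mem hx]; exact hx
    · rw [Set.indicator_of_notMem hx, norm_zero]; positivity
  · filter_upwards [hbd] with x h1
    rw [Set.indicator_of_mem]
    exact h1

private lemma Ext_L2 {X : Type*} [mX : MeasurableSpace X] {μ : Measure X} (f : X → ℂ) :
    eLpNorm f 2 μ ^ 2 = ∫⁻ x, ‖f x‖ₑ ^ 2 ∂μ := by
  rw [eLpNorm_eq_lintegral_rpow_enorm_toReal (by norm_num) (by norm_num)]
  have h2 : ((2 : ENNReal).toReal) = 2 := by norm_num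
  rw [h2, ← ENNReal.rpow_natCast, ← ENNReal.rpow_mul]
  norm_num

private lemma Ext_contr {X : Type*} {m : MeasurableSpace X} [mX : MeasurableSpace X] {μ : Measure X} [IsFiniteMeasure μ]
    {h D Ds H : X → ℂ} {B : ℕ}
    (hhm : Measurable h) (hhb : ∀ x, ‖h x‖ ≤ B) (hDm : Measurable D) (hDb : ∀ x, ‖D x‖ ≤ B)
    (hDs : Ds =ᵐ[μ] μ[D | m]) (hH : μ[h | m] =ᵐ[μ] H) :
    ∫⁻ x, ‖H x - Ds x‖ₑ ^ 2 ∂μ ≤ ∫⁻ x, ‖h x - D x‖ₑ ^ 2 ∂μ := by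
  have hhi : Integrable h μ := Integrable.of_bound hhm.aestronglyMeasurable B (Eventually.of_forall hhb)
  have hDi : Integrable D μ := Integrable.of_bound hDm.aestronglyMeasurable B (Eventually.of_forall hDb)
  have h1 : μ[h - D | m] =ᵐ[μ] fun x => H x - Ds x := by
    filter_upwards [condExp_sub hhi hDi m, hDs, hH] with x h1 h2 h3
    rw [h1, Pi.sub_apply, h2, h3]
  have h2 := eLpNorm_condExp_le_eLpNorm (m := m) (μ := μ) (h - D) (p := 2) (by norm_num)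
  rw [eLpNorm_congr_ae h1] at h2
  have h3 := pow_le_pow_left' h2 2
  rw [Ext_L2, Ext_L2] at h3
  exact h3

theorem extC {X : Type*} [mX : MeasurableSpace X] {μ : Measure X} [IsFiniteMeasure μ] {r : ℕ}
    {T R : Fin r → ℤ → X → X} (hT : ∀ i n, MeasurePreserving (T i n) μ μ)
    (hR : ∀ i n, MeasurePreserving (R i n) μ μ)
    (hmax : ∀ i, ∃ C : NNReal, ∀ v : X → ENNReal, Measurable v →
      ∫⁻ x, (⨆ N : ℕ, ((2 * N + 1 : ℕ) : ENNReal)⁻¹ * ∑ n ∈ Finset.Icc (-(N : ℤ)) (N : ℤ), v (T i n x)) ^ 2 ∂μ ≤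
        C * ∫⁻ x, v x ^ 2 ∂μ)
    (hmaxR : ∀ i, ∃ C : NNReal, ∀ v : X → ENNReal, Measurable v →
      ∫⁻ x, (⨆ N : ℕ, ((2 * N + 1 : ℕ) : ENNReal)⁻¹ * ∑ n ∈ Finset.Icc (-(N : ℤ)) (N : ℤ), v (R i n x)) ^ 2 ∂μ ≤
        C * ∫⁻ x, v x ^ 2 ∂μ)
    {m : Fin r → MeasurableSpace X} (hm : ∀ i, m i ≤ mX)
    {a : ℤ → X → ℂ} {C : ℝ} (ha1 : ∀ n x, ‖a n x‖ ≤ C)
    {D Ds : Fin r → ℕ → ℕ → X → ℂ} (hDm : ∀ i B n, Measurable (D i B n)) (hDb : ∀ i B n x, ‖D i B n x‖ ≤ B)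
    (hDsm : ∀ i B n, Measurable (Ds i B n)) (hDsb : ∀ i B n x, ‖Ds i B n x‖ ≤ B)
    (hDs : ∀ i B n, Ds i B n =ᵐ[μ] μ[D i B n | m i])
    (hdense : ∀ i (B : ℕ) (h : X → ℂ), Measurable h → (∀ x, ‖h x‖ ≤ B) → ∀ ε : ℝ, 0 < ε →
      ∃ n, ∫⁻ x, ‖h x - D i B n x‖ₑ ^ 2 ∂μ ≤ ENNReal.ofReal ε)
    (hconv : ∀ (B : ℕ) (k : Fin r → ℕ), ∀ᵐ x ∂μ, Tendsto (fun N : ℕ => ((2 * N + 1 : ℕ) : ℂ)⁻¹ *
      ∑ n ∈ Finset.Icc (-(N : ℤ)) N, a n x * (∏ i, D i B (k i) (T i n x) - ∏ i, Ds i B (k i) (R i n x)))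
        atTop (𝓝 0))
    (h : Fin r → X → ℂ) (hh : ∀ i, MemLp (h i) ⊤ μ) :
    ∀ᵐ x ∂μ, Tendsto (fun N : ℕ => ((2 * N + 1 : ℕ) : ℂ)⁻¹ *
        ∑ n ∈ Finset.Icc (-(N : ℤ)) N, a n x * (∏ i, h i (T i n x) - ∏ i, (μ[h i | m i]) (R i n x)))
          atTop (𝓝 0) := by
  classical
  -- measurable representatives with a common bound
  choose B0 h' hm' hb0 hae using fun i => Ext_repr (hh i)
  set B : ℕ := (Finset.univ.sup B0) + 1 with hBdef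
  have hB1 : (1 : ENNReal) ≤ (B : ENNReal) := by
    have : 1 ≤ B := by omega
    exact_mod_cast this
  have hb' : ∀ i x, ‖h' i x‖ ≤ B := fun i x => by
    refine (hb0 i x).trans ?_
    have h1 : B0 i ≤ Finset.univ.sup B0 := Finset.le_sup (Finset.mem_univ i)
    have h2 : B0 i ≤ B := by omega
    exact_mod_cast h2
  have hen : ∀ {z : ℂ}, ‖z‖ ≤ (B : ℝ) → ‖z‖ₑ ≤ (B : ENNReal) := by
    intro z hz
    rw [← ofReal_norm, ← ENNReal.ofReal_natCast]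
    exact ENNReal.ofReal_le_ofReal hz
  choose H' hHm hHb hHae using fun i => Ext_cond (μ := μ) (hm i) (hb' i)
  have hHae' : ∀ i, μ[h i | m i] =ᵐ[μ] H' i := fun i => (condExp_congr_ae (hae i)).trans (hHae i)
  choose k hk using fun (l : ℕ) (i : Fin r) => hdense i B (h' i) (hm' i) (hb' i) ((1 / 2) ^ l)
    (by positivity)
  have hk' : ∀ (l : ℕ) (i : Fin r), ∫⁻ x, ‖H' i x - Ds i B (k l i) x‖ₑ ^ 2 ∂μ ≤
      ENNReal.ofReal ((1 / 2) ^ l) := fun l i =>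
    (Ext_contr (hm' i) (hb' i) (hDm i B (k l i)) (hDb i B (k l i)) (hDs i B (k l i)) (hHae i)).trans
      (hk l i)
  choose Cm hCm using hmax
  choose Cm1 hCm1 using hmaxR
  have hEm : ∀ (l : ℕ) (i : Fin r), Measurable (fun x => ‖h' i x - D i B (k l i) x‖ₑ) :=
    fun l i => ((hm' i).sub (hDm i B (k l i))).enorm
  have hEm1 : ∀ (l : ℕ) (i : Fin r), Measurable (fun x => ‖H' i x - Ds i B (k l i) x‖ₑ) :=
    fun l i => ((hHm i).sub (hDsm i B (k l i))).enorm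
  have hM0 : ∀ᵐ x ∂μ, ∀ i, Tendsto (fun l => ⨆ N : ℕ, ((2 * N + 1 : ℕ) : ENNReal)⁻¹ *
      ∑ n ∈ Finset.Icc (-(N : ℤ)) (N : ℤ), ‖h' i (T i n x) - D i B (k l i) (T i n x)‖ₑ)
      atTop (𝓝 0) :=
    ae_all_iff.2 fun i => Ext_ae (hT i) (hCm i) (E := fun l x => ‖h' i x - D i B (k l i) x‖ₑ)
      (fun l => hEm l i) fun l => hk l i
  have hM10 : ∀ᵐ x ∂μ, ∀ i, Tendsto (fun l => ⨆ N : ℕ, ((2 * N + 1 : ℕ) : ENNReal)⁻¹ *
      ∑ n ∈ Finset.Icc (-(N : ℤ)) (N : ℤ), ‖H' i (R i n x) - Ds i B (k l i) (R i n x)‖ₑ)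
      atTop (𝓝 0) :=
    ae_all_iff.2 fun i => Ext_ae (hR i) (hCm1 i) (E := fun l x => ‖H' i x - Ds i B (k l i) x‖ₑ)
      (fun l => hEm1 l i) fun l => hk' l i
  have hT' : ∀ᵐ x ∂μ, ∀ i n, h i (T i n x) = h' i (T i n x) :=
    ae_all_iff.2 fun i => ae_all_iff.2 fun n =>
      (hT i n).quasiMeasurePreserving.ae (hae i)
  have hR' : ∀ᵐ x ∂μ, ∀ i n, (μ[h i | m i]) (R i n x) = H' i (R i n x) :=
    ae_all_iff.2 fun i => ae_all_iff.2 fun n =>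
      (hR i n).quasiMeasurePreserving.ae (hHae' i)
  have hc : ∀ᵐ x ∂μ, ∀ l, Tendsto (fun N : ℕ => ((2 * N + 1 : ℕ) : ℂ)⁻¹ *
      ∑ n ∈ Finset.Icc (-(N : ℤ)) N, a n x * (∏ i, D i B (k l i) (T i n x) -
        ∏ i, Ds i B (k l i) (R i n x))) atTop (𝓝 0) :=
    ae_all_iff.2 fun l => hconv B (k l)
  filter_upwards [hM0, hM10, hT', hR', hc] with x h2 h3 h4 h5 h6
  simp only [h4, h5]
  refine Ext_two (B := (B : ENNReal)) (C := ENNReal.ofReal C) hB1 (ENNReal.natCast_ne_top _)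
    ENNReal.ofReal_ne_top (a := fun n => a n x) (fun n => ?_)
    (u := fun i n => h' i (T i n x)) (H := fun i n => H' i (R i n x))
    (v := fun l i n => D i B (k l i) (T i n x)) (dl := fun l i n => Ds i B (k l i) (R i n x))
    (M := fun l i => ⨆ N : ℕ, ((2 * N + 1 : ℕ) : ENNReal)⁻¹ *
      ∑ n ∈ Finset.Icc (-(N : ℤ)) (N : ℤ), ‖h' i (T i n x) - D i B (k l i) (T i n x)‖ₑ)
    (M1 := fun l i => ⨆ N : ℕ, ((2 * N + 1 : ℕ) : ENNReal)⁻¹ *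
      ∑ n ∈ Finset.Icc (-(N : ℤ)) (N : ℤ), ‖H' i (R i n x) - Ds i B (k l i) (R i n x)‖ₑ)
    (fun i n => hen (hb' i _)) (fun i n => hen (hHb i _)) (fun l i n => hen (hDb i B _ _))
    (fun l i n => hen (hDsb i B _ _))
    (fun l i N => le_iSup (fun N : ℕ => ((2 * N + 1 : ℕ) : ENNReal)⁻¹ *
      ∑ n ∈ Finset.Icc (-(N : ℤ)) (N : ℤ), ‖h' i (T i n x) - D i B (k l i) (T i n x)‖ₑ) N)
    (fun l i N => le_iSup (fun N : ℕ => ((2 * N + 1 : ℕ) : ENNReal)⁻¹ *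
      ∑ n ∈ Finset.Icc (-(N : ℤ)) (N : ℤ), ‖H' i (R i n x) - Ds i B (k l i) (R i n x)‖ₑ) N)
    h2 h3 h6
  rw [← ofReal_norm]
  exact ENNReal.ofReal_le_ofReal (ha1 n x)

end Pool.Agent.GTC
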