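import Mathlib
import Pool.Agent.GT.Defs
import Pool.Agent.GT.Ops
import Pool.Agent.GT.Osc
import Pool.Agent.GT.Lim

/-!
# GTC/Inv: the limit of the smoothed functions is the conditional expectation on the invariant sets

`GT.lim_exists` gives a measurable `fs`, `‖fs‖ ≤ B`, with `Kop φ (2^k) f x → fs x` almost everywhere.  Let `E` be the (measurable) set of `x` where `Kop φ (2^k) f x` converges and `g x` the
limit for `x ∈ E`, `g x = 0` otherwise.  `E` is invariant and `g (φ_s x) = g x` for all `x`, `s`: `‖Kop φ M f (φ_s x) - Kop φ M f x‖ ≤ 2 B |s| / M` (average over `[0, M]` of a function bounded by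
`B` along the orbit, shifted by `s`; see `Osc_diff` in `GT/Osc.lean`, private, or `appr_avg_shift` in `GT/Appr.lean`).  So `g` is measurable with respect to `inv φ`, `g = fs` almost everywhere.
For `A ∈ inv φ`: `∫_A Kop φ M f = ∫_A f` (Fubini, `φ_t` preserves `μ` and `A`), and `∫_A Kop φ (2^k) f → ∫_A g` (dominated convergence).  Hence `g = μ[f | inv φ]` almost everywhere
(`MeasureTheory.ae_eq_condExp_of_forall_setIntegral_eq`).
-/

namespace Pool.Agent.GTC

open MeasureTheory Filter Topology Pool.Agent.GT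

/-- the σ-algebra of the measurable sets which are invariant under the flow -/
def inv {X : Type*} [MeasurableSpace X] (φ : ℝ → X → X) : MeasurableSpace X where
  MeasurableSet' A := MeasurableSet A ∧ ∀ t, φ t ⁻¹' A = A
  measurableSet_empty := ⟨MeasurableSet.empty, fun _ => rfl⟩
  measurableSet_compl A hA := ⟨hA.1.compl, fun t => by rw [Set.preimage_compl, hA.2]⟩
  measurableSet_iUnion f hf := ⟨MeasurableSet.iUnion fun i => (hf i).1, fun t => by
    rw [Set.preimage_iUnion]
    exact Set.iUnion_congr fun i => (hf i).2 t⟩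

theorem inv_le {X : Type*} [mX : MeasurableSpace X] (φ : ℝ → X → X) : inv φ ≤ mX := fun _ h => h.1

section
variable {X : Type*} [MeasurableSpace X] {μ : Measure X} [IsFiniteMeasure μ] {φ : ℝ → X → X} {F : X → ℂ} {B L M : ℝ}

/-- averages over `[0, M]` hardly change along the orbit -/
private theorem Inv_shift (hφ : IsFlow μ φ) (hF : Nice φ B L F) (hM : 0 < M) (s : ℝ) (x : X) :
    ‖avg φ M F (φ s x) - avg φ M F x‖ ≤ 2 * B * |s| / M := by
  have hi : ∀ a b : ℝ, IntervalIntegrable (fun s => F (φ s x)) volume a b := fun a b =>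
    (hF.cont x).intervalIntegrable a b
  have hd : avg φ M F (φ s x) - avg φ M F x =
      ((M⁻¹ : ℝ) : ℂ) * ((∫ t in M..(M + s), F (φ t x)) - ∫ t in (0 : ℝ)..s, F (φ t x)) := by
    unfold avg
    rw [← mul_sub]
    congr 1
    have h1 : ∫ t in (0 : ℝ)..M, F (φ t (φ s x)) = ∫ t in s..(M + s), F (φ t x) := by
      have h2 := intervalIntegral.integral_comp_add_right (a := (0 : ℝ)) (b := M)
        (fun t => F (φ t x)) s
      rw [zero_add] at h2
      rw [← h2]
      refine intervalIntegral.integral_congr fun t _ => ?_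
      show F (φ t (φ s x)) = F (φ (t + s) x)
      rw [hφ.add]
    rw [h1]
    have h3 := intervalIntegral.integral_add_adjacent_intervals (hi 0 s) (hi s (M + s))
    have h4 := intervalIntegral.integral_add_adjacent_intervals (hi 0 M) (hi M (M + s))
    rw [← h4] at h3
    linear_combination h3
  have b1 : ‖∫ t in M..(M + s), F (φ t x)‖ ≤ B * |M + s - M| :=
    intervalIntegral.norm_integral_le_of_norm_le_const fun t _ => hF.bd _
  have b2 : ‖∫ t in (0 : ℝ)..s, F (φ t x)‖ ≤ B * |s - 0| :=
    intervalIntegral.norm_integral_le_of_norm_le_const fun t _ => hF.bd _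
  rw [add_sub_cancel_left] at b1
  rw [sub_zero] at b2
  rw [hd, norm_mul, Complex.norm_real, Real.norm_of_nonneg (inv_nonneg.2 hM.le)]
  calc M⁻¹ * ‖(∫ t in M..(M + s), F (φ t x)) - ∫ t in (0 : ℝ)..s, F (φ t x)‖
      ≤ M⁻¹ * (B * |s| + B * |s|) :=
        mul_le_mul_of_nonneg_left ((norm_sub_le _ _).trans (add_le_add b1 b2)) (inv_nonneg.2 hM.le)
    _ = 2 * B * |s| / M := by
        rw [div_eq_mul_inv]
        ring

/-- the integral over an invariant set does not change under the flow -/
private theorem Inv_int (hφ : IsFlow μ φ) (hF : Measurable F) {A : Set X} (hA : MeasurableSet[inv φ] A)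
    (t : ℝ) : ∫ x in A, F (φ t x) ∂μ = ∫ x in A, F x ∂μ := by
  have hA1 : MeasurableSet A := hA.1
  have hA2 : φ t ⁻¹' A = A := hA.2 t
  rw [← integral_indicator hA1, ← integral_indicator hA1]
  have e : A.indicator (fun x => F (φ t x)) = fun x => A.indicator F (φ t x) := by
    funext x
    have hx : x ∈ A ↔ φ t x ∈ A := by
      conv_lhs => rw [← hA2]
      rfl
    by_cases h : x ∈ A
    · rw [Set.indicator_of_mem h, Set.indicator_of_mem (hx.1 h)]
    · rw [Set.indicator_of_notMem h, Set.indicator_of_notMem (fun h' => h (hx.2 h'))]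
  rw [e]
  have hm : AEStronglyMeasurable (A.indicator F) (μ.map (φ t)) :=
    (hF.indicator hA1).aestronglyMeasurable
  rw [← integral_map (hφ.mp t).measurable.aemeasurable hm, (hφ.mp t).map_eq]

/-- averages have the same integrals over invariant sets -/
private theorem Inv_avg (hφ : IsFlow μ φ) (hF : Nice φ B L F) (hM : 0 < M) {A : Set X}
    (hA : MeasurableSet[inv φ] A) : ∫ x in A, avg φ M F x ∂μ = ∫ x in A, F x ∂μ := by
  have hint : Integrable (Function.uncurry fun (x : X) (t : ℝ) => F (φ t x))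
      ((μ.restrict A).prod (volume.restrict (Set.Ioc 0 M))) := by
    refine Integrable.of_bound (C := B) ?_ (Filter.Eventually.of_forall fun p => hF.bd _)
    exact (hF.meas.comp (hφ.meas.comp measurable_swap)).aestronglyMeasurable
  unfold avg
  rw [integral_const_mul]
  have h1 : ∫ x in A, (∫ t in (0 : ℝ)..M, F (φ t x)) ∂μ = ∫ t in Set.Ioc (0 : ℝ) M, (∫ x in A, F (φ t x) ∂μ) := by
    rw [← integral_integral_swap hint]
    refine integral_congr_ae (Filter.Eventually.of_forall fun x => ?_)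
    exact intervalIntegral.integral_of_le hM.le
  have h2 : ∀ t, ∫ x in A, F (φ t x) ∂μ = ∫ x in A, F x ∂μ := Inv_int hφ hF.meas hA
  rw [h1]
  simp only [h2]
  rw [setIntegral_const, measureReal_def, Real.volume_Ioc, sub_zero, ENNReal.toReal_ofReal hM.le, Complex.real_smul, ← mul_assoc,
    ← Complex.ofReal_mul, inv_mul_cancel₀ hM.ne', Complex.ofReal_one, one_mul]

private theorem Inv_rev (φ : ℝ → X → X) {A : Set X} (hA : MeasurableSet[inv φ] A) :
    MeasurableSet[inv (rev φ)] A := ⟨hA.1, fun t => hA.2 (-t)⟩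

private theorem Inv_Kop (hφ : IsFlow μ φ) (hF : Nice φ B L F) (hM : 0 < M) {A : Set X}
    (hA : MeasurableSet[inv φ] A) : ∫ x in A, Kop φ M F x ∂μ = ∫ x in A, F x ∂μ := by
  unfold Kop
  rw [Inv_avg hφ (avg_rev_nice hφ hF hM) hM hA, Inv_avg hφ.rev hF.rev hM (Inv_rev φ hA)]

end

theorem lim_inv {X : Type*} [MeasurableSpace X] {μ : Measure X} [IsFiniteMeasure μ]
    {φ : ℝ → X → X} (hφ : IsFlow μ φ) {f : X → ℂ} {B L : ℝ} (hf : Nice φ B L f) (hL : 0 ≤ L) {fs : X → ℂ}
    (hlim : ∀ᵐ x ∂μ, Tendsto (fun k : ℕ => Kop φ (2 ^ k) f x) atTop (𝓝 (fs x))) :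
    fs =ᵐ[μ] μ[f | inv φ] := by
  classical
  have hpos : ∀ k : ℕ, (0 : ℝ) < 2 ^ k := fun k => by positivity
  have hK : ∀ k : ℕ, Nice φ B L (Kop φ (2 ^ k) f) := fun k => Kop_nice hφ hf (hpos k)
  -- the set of convergence
  set E : Set X := {x | ∃ l : ℂ, Tendsto (fun k : ℕ => Kop φ (2 ^ k) f x) atTop (𝓝 l)} with hE
  have hEm : MeasurableSet E := measurableSet_exists_tendsto fun k => (hK k).meas
  -- invariance
  have hsh : ∀ (s : ℝ) (x : X),
      Tendsto (fun k : ℕ => Kop φ (2 ^ k) f (φ s x) - Kop φ (2 ^ k) f x) atTop (𝓝 0) := by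
    intro s x
    rw [tendsto_zero_iff_norm_tendsto_zero]
    have h0 : Tendsto (fun k : ℕ => 2 * B * |s| / (2 : ℝ) ^ k) atTop (𝓝 0) :=
      Tendsto.const_div_atTop (tendsto_pow_atTop_atTop_of_one_lt (by norm_num)) _
    refine squeeze_zero (fun k => norm_nonneg _) (fun k => ?_) h0
    exact Inv_shift hφ (avg_rev_nice hφ hf (hpos k)) (hpos k) s x
  have hinv : ∀ (s : ℝ) (x : X) (l : ℂ), Tendsto (fun k : ℕ => Kop φ (2 ^ k) f x) atTop (𝓝 l) →
      Tendsto (fun k : ℕ => Kop φ (2 ^ k) f (φ s x)) atTop (𝓝 l) := by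
    intro s x l h
    have h1 := h.add (hsh s x)
    rw [add_zero] at h1
    refine h1.congr fun k => ?_
    ring
  have hinv' : ∀ (s : ℝ) (x : X) (l : ℂ), Tendsto (fun k : ℕ => Kop φ (2 ^ k) f (φ s x)) atTop (𝓝 l) →
      Tendsto (fun k : ℕ => Kop φ (2 ^ k) f x) atTop (𝓝 l) := by
    intro s x l h
    have h1 := h.sub (hsh s x)
    rw [sub_zero] at h1
    refine h1.congr fun k => ?_
    ring
  -- the limit function
  set g : X → ℂ := fun x => if h : ∃ l : ℂ, Tendsto (fun k : ℕ => Kop φ (2 ^ k) f x) atTop (𝓝 l) then h.choose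
    else 0 with hg
  have hgl : ∀ x l, Tendsto (fun k : ℕ => Kop φ (2 ^ k) f x) atTop (𝓝 l) → g x = l := by
    intro x l h
    have h1 : ∃ l : ℂ, Tendsto (fun k : ℕ => Kop φ (2 ^ k) f x) atTop (𝓝 l) := ⟨l, h⟩
    rw [hg]
    simp only [dif_pos h1]
    exact tendsto_nhds_unique h1.choose_spec h
  have hg0 : ∀ x, x ∉ E → g x = 0 := by
    intro x h
    rw [hg]
    exact dif_neg h
  have hgi : ∀ s x, g (φ s x) = g x := by
    intro s x
    by_cases hx : x ∈ E
    · obtain ⟨l, hl⟩ := hx
      rw [hgl x l hl, hgl _ l (hinv s x l hl)]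
    · rw [hg0 x hx]
      refine hg0 _ fun ⟨l, hl⟩ => hx ⟨l, hinv' s x l hl⟩
  have hgm : Measurable g := by
    refine measurable_of_tendsto_metrizable (f := fun k : ℕ => E.indicator (Kop φ (2 ^ k) f))
      (fun k => (hK k).meas.indicator hEm) ?_
    rw [tendsto_pi_nhds]
    intro x
    by_cases hx : x ∈ E
    · simp only [Set.indicator_of_mem hx]
      obtain ⟨l, hl⟩ := hx
      rw [hgl x l hl]
      exact hl
    · simp only [Set.indicator_of_notMem hx]
      rw [hg0 x hx]
      exact tendsto_const_nhds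
  have hgB : ∀ x, ‖g x‖ ≤ |B| := by
    intro x
    by_cases hx : x ∈ E
    · obtain ⟨l, hl⟩ := hx
      rw [hgl x l hl]
      exact le_of_tendsto hl.norm (Filter.Eventually.of_forall fun k => ((hK k).bd x).trans (le_abs_self B))
    · rw [hg0 x hx, norm_zero]
      exact abs_nonneg B
  have hginv : Measurable[inv φ] g := by
    intro A hA
    refine ⟨hgm hA, fun t => ?_⟩
    ext x
    simp only [Set.mem_preimage, hgi]
  have hfg : fs =ᵐ[μ] g := by
    filter_upwards [hlim] with x hx
    rw [hgl x _ hx]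
  refine hfg.trans ?_
  have hfi : Integrable f μ := Integrable.of_bound hf.meas.aestronglyMeasurable B (Filter.Eventually.of_forall hf.bd)
  have hgint : Integrable g μ := Integrable.of_bound hgm.aestronglyMeasurable |B| (Filter.Eventually.of_forall hgB)
  refine ae_eq_condExp_of_forall_setIntegral_eq (inv_le φ) hfi (fun A _ _ => hgint.integrableOn) ?_
    hginv.stronglyMeasurable.aestronglyMeasurable
  intro A hA _
  have h1 : Tendsto (fun k : ℕ => ∫ x in A, Kop φ (2 ^ k) f x ∂μ) atTop (𝓝 (∫ x in A, g x ∂μ)) := by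
    refine tendsto_integral_of_dominated_convergence (fun _ => B)
      (fun k => (hK k).meas.aestronglyMeasurable) (integrable_const _)
      (fun k => Filter.Eventually.of_forall fun x => (hK k).bd x) ?_
    refine ae_restrict_of_ae ?_
    filter_upwards [hlim] with x hx
    rw [hgl x _ hx]
    exact hx
  have h2 : ∀ k : ℕ, ∫ x in A, Kop φ (2 ^ k) f x ∂μ = ∫ x in A, f x ∂μ := fun k => Inv_Kop hφ hf (hpos k) hA
  simp only [h2] at h1
  exact tendsto_nhds_unique h1 tendsto_const_nhds

end Pool.Agent.GTC
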