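import Mathlib
import Pool.Agent.GTC.TDefs
import Pool.Agent.Nil.Final

/-!
# GTC/MaxC: maximal inequality along `φ(β P(n)) S^n`

Compare `GT/Max.lean` (one map) and `Pool.Nil.orb_max_two`.  `P = ∑_{j ≤ D} p_j x^j`, `D = natDegree P`.  The maps `T_j = φ_{β p_j}` (`j ≤ D`) and `T_{D+1} = S` are invertible measure preserving
maps (as `Equiv.Perm X`) which commute, so they generate a commutative group (`Subgroup.closureCommGroupOfComm`, `CommGroup.isNilpotent`).  With the integer polynomials `X^j` (`j ≤ D`) and `X`,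
`orb T P n x = φ(β p_0) φ(β p_1 n) ⋯ φ(β p_D n^D) (S^n x) = φ(β P(n)) (S^n x)` (product over `Fin (D+2)`, see the definition of `Pool.Nil.orb`; `Polynomial.eval_eq_sum_range`;
the order of the factors does not matter, but the product in `orb` is a `List`/`Fin` product: use whatever is easiest, e.g. `T = Fin.snoc` or `Fin.cons S ..`).
-/

namespace Pool.Agent.GTC

open MeasureTheory Pool.Agent.GT

private noncomputable def MaxC_perm {X : Type*} [MeasurableSpace X] {μ : Measure X} {φ : ℝ → X → X}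
    (hφ : IsFlow μ φ) (β : ℝ) : Equiv.Perm X where
  toFun := φ β
  invFun := φ (-β)
  left_inv x := by rw [← hφ.add, neg_add_cancel, hφ.zero]
  right_inv x := by rw [← hφ.add, add_neg_cancel, hφ.zero]

private theorem MaxC_zpow {X : Type*} [MeasurableSpace X] {μ : Measure X} {φ : ℝ → X → X}
    (hφ : IsFlow μ φ) (β : ℝ) (k : ℤ) : ∀ x, (MaxC_perm hφ β ^ k) x = φ (β * k) x := by
  induction k using Int.induction_on with
  | zero =>
    intro x
    rw [zpow_zero, Int.cast_zero, mul_zero, hφ.zero]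
    rfl
  | succ k ih =>
    intro x
    rw [zpow_add_one, Equiv.Perm.mul_apply, ih]
    change φ (β * ((k : ℤ) : ℝ)) (φ β x) = _
    rw [← hφ.add]
    congr 1
    push_cast
    ring
  | pred k ih =>
    intro x
    rw [zpow_sub_one, Equiv.Perm.mul_apply, ih]
    change φ (β * ((-(k : ℤ) : ℤ) : ℝ)) (φ (-β) x) = _
    rw [← hφ.add]
    congr 1
    push_cast
    ring

private theorem MaxC_prod {X : Type*} [MeasurableSpace X] {μ : Measure X} {φ : ℝ → X → X}
    (hφ : IsFlow μ φ) (b : ℕ → ℝ) (n : ℤ) (m : ℕ) : ∀ x,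
    (List.ofFn fun j : Fin m => MaxC_perm hφ (b j) ^ (n ^ (j : ℕ))).prod x =
      φ (∑ j ∈ Finset.range m, b j * (n : ℝ) ^ j) x := by
  induction m with
  | zero =>
    intro x
    rw [List.ofFn_zero, List.prod_nil, Finset.range_zero, Finset.sum_empty, hφ.zero]
    rfl
  | succ m ih =>
    intro x
    rw [List.ofFn_succ', List.concat_eq_append, List.prod_append, List.prod_singleton,
      Equiv.Perm.mul_apply, MaxC_zpow, Finset.sum_range_succ, hφ.add]
    have h := ih (φ (b m * (n : ℝ) ^ m) x)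
    simp only [Fin.val_castSucc, Fin.val_last]
    rw [← h]
    push_cast
    rfl

theorem maxC {X : Type*} [MeasurableSpace X] {μ : Measure X} {φ : ℝ → X → X} (hφ : IsFlow μ φ) {S : Equiv.Perm X}
    (hS : Comm μ φ S) (β : ℝ) (P : Polynomial ℝ) : ∃ C : NNReal, ∀ v : X → ENNReal, Measurable v →
      ∫⁻ x, (⨆ N : ℕ, ((2 * N + 1 : ℕ) : ENNReal)⁻¹ *
        ∑ n ∈ Finset.Icc (-(N : ℤ)) (N : ℤ), v (φ (β * P.eval (n : ℝ)) ((S ^ n) x))) ^ 2 ∂μ ≤
          C * ∫⁻ x, v x ^ 2 ∂μ := by
  classical
  set T : Fin (P.natDegree + 2) → Equiv.Perm X :=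
    Fin.snoc (fun j : Fin (P.natDegree + 1) => MaxC_perm hφ (β * P.coeff j)) S with hT
  set Q : Fin (P.natDegree + 2) → Polynomial ℤ :=
    Fin.snoc (fun j : Fin (P.natDegree + 1) => (Polynomial.X : Polynomial ℤ) ^ (j : ℕ)) Polynomial.X with hQ
  have hc : ∀ s t : ℝ, MaxC_perm hφ s * MaxC_perm hφ t = MaxC_perm hφ t * MaxC_perm hφ s := by
    intro s t
    ext x
    exact hφ.comm s t x
  have hcS : ∀ s : ℝ, MaxC_perm hφ s * S = S * MaxC_perm hφ s := by
    intro s
    ext x
    exact hS.comm s x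
  have hcomm : ∀ i j, T i * T j = T j * T i := by
    intro i j
    induction i using Fin.lastCases with
    | last =>
      induction j using Fin.lastCases with
      | last => rfl
      | cast j => rw [hT, Fin.snoc_last, Fin.snoc_castSucc, hcS]
    | cast i =>
      induction j using Fin.lastCases with
      | last => rw [hT, Fin.snoc_last, Fin.snoc_castSucc, hcS]
      | cast j => rw [hT, Fin.snoc_castSucc, Fin.snoc_castSucc, hc]
  have hnil : Group.IsNilpotent (Subgroup.closure (Set.range T)) := by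
    refine @CommGroup.isNilpotent _ (Subgroup.closureCommGroupOfComm ?_)
    rintro x ⟨i, rfl⟩ y ⟨j, rfl⟩
    exact hcomm i j
  have hmp : ∀ i, MeasurePreserving (T i) μ μ := by
    intro i
    induction i using Fin.lastCases with
    | last => rw [hT, Fin.snoc_last]; exact hS.mp
    | cast i => rw [hT, Fin.snoc_castSucc]; exact hφ.mp _
  have hmp' : ∀ i, MeasurePreserving (T i).symm μ μ := by
    intro i
    induction i using Fin.lastCases with
    | last => rw [hT, Fin.snoc_last]; exact hS.mp'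
    | cast i => rw [hT, Fin.snoc_castSucc]; exact hφ.mp _
  obtain ⟨C, hC⟩ := Pool.Nil.orb_max_two (μ := μ) T hmp hmp' hnil Q
  refine ⟨C, fun v hv => ?_⟩
  have e : ∀ (n : ℤ) (x : X), Pool.Nil.orb T Q n x = φ (β * P.eval (n : ℝ)) ((S ^ n) x) := by
    intro n x
    have h1 : Pool.Nil.orb T Q n =
        (List.ofFn fun j : Fin (P.natDegree + 1) => MaxC_perm hφ (β * P.coeff j) ^ (n ^ (j : ℕ))).prod *
          S ^ n := by
      unfold Pool.Nil.orb
      rw [List.ofFn_succ', List.concat_eq_append, List.prod_append, List.prod_singleton]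
      simp only [hT, hQ, Fin.snoc_castSucc, Fin.snoc_last, Polynomial.eval_pow, Polynomial.eval_X]
    rw [h1, Equiv.Perm.mul_apply, MaxC_prod hφ (fun j => β * P.coeff j) n, Polynomial.eval_eq_sum_range,
      Finset.mul_sum]
    congr 1
    refine Finset.sum_congr rfl fun j _ => ?_
    ring
  have h := hC v hv
  simp only [e] at h
  exact h

end Pool.Agent.GTC
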