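import Mathlib
import Pool.Agent.GTC.TDefs

/-!
# GTC/PolyR: real polynomials give regular times

`P` real, `D = natDegree P ≥ 1`, leading coefficient `l > 0`.  `P(x)/x^D → l`, `P'(x)/x^(D-1) → D l > 0`, and
`(P' ^ 2 - P P'')(x) / x^(2D-2) → (D² - D(D-1)) l² = D l² > 0` (`Polynomial.div_tendsto_leadingCoeff_div_of_degree_eq`, or `Polynomial.isEquivalent_atTop_lead`; for `D = 1` the polynomial `P'^2 - P P''` is
the constant `l²`).  So there are `c0 > 0` and `x0 ≥ 1` with, for all real `x ≥ x0`: `c0 x^D ≤ P x ≤ c0⁻¹ x^D`, `P' x ≥ c0 x^(D-1)`, `(P'^2 - P P'')(x) / P(x)^2 ≥ c0 / x^2`.  For `N ≥ N0 ≥ x0`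
and `x ∈ [N, 2N]`: `lower`, `upper` are clear (`(2N)^D = 2^D N^D`); `incr` is the mean value theorem for `P` on `[n, n+h]` (`exists_deriv_eq_slope` or `Convex.mul_sub_le_image_sub_of_le_deriv`).
`ratio`: put `l(x) = log P(x)`, `l' = P'/P`, `l'' = (P P'' - P'^2)/P^2 ≤ -c0/x^2 ≤ -c0/(4 N^2)` on `[N, 2N]`.  The function `u ↦ l(n+u) - l(n'+u)` on `[0, h]` has derivative
`l'(n+u) - l'(n'+u) ≥ c0 (n'-n)/(4N^2)`, so `l(n+h) - l(n'+h) - l(n) + l(n') ≥ c0 (n'-n) h/(4N^2) =: δ`, i.e. `θ(n) ≥ θ(n') e^δ ≥ θ(n') (1 + δ)`, `θ(m) = P(m+h)/P(m) ≥ 1`, so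
`θ(n) - θ(n') ≥ δ`.
-/

namespace Pool.Agent.GTC

open Polynomial Filter Topology

theorem polyR_asym (Q : Polynomial ℝ) (k : ℕ) (hk : Q.natDegree ≤ k) (ha : 0 < Q.coeff k) :
    ∃ x0 : ℝ, ∀ x : ℝ, x0 ≤ x → Q.coeff k / 2 * x ^ k ≤ Q.eval x ∧ Q.eval x ≤ 2 * Q.coeff k * x ^ k := by
  have hd : Q.natDegree = k := natDegree_eq_of_le_of_coeff_ne_zero hk ha.ne'
  have hlc : Q.leadingCoeff = Q.coeff k := by rw [leadingCoeff, hd]
  have hdeg : Q.degree = (X ^ k : Polynomial ℝ).degree := by
    rw [degree_X_pow, degree_eq_natDegree (by rintro rfl; simp at ha), hd]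
  have ht := div_tendsto_atTop_leadingCoeff_div_of_degree_eq Q (X ^ k : Polynomial ℝ) hdeg
  rw [hlc, leadingCoeff_X_pow, div_one] at ht
  have h1 : ∀ᶠ x : ℝ in atTop, Q.coeff k / 2 < Q.eval x / (X ^ k : Polynomial ℝ).eval x :=
    ht.eventually (lt_mem_nhds (by linarith))
  have h2 : ∀ᶠ x : ℝ in atTop, Q.eval x / (X ^ k : Polynomial ℝ).eval x < 2 * Q.coeff k :=
    ht.eventually (gt_mem_nhds (by linarith))
  obtain ⟨x0, hx0⟩ := eventually_atTop.1 ((h1.and h2).and (eventually_gt_atTop (0 : ℝ)))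
  refine ⟨x0, fun x hx => ?_⟩
  obtain ⟨⟨h3, h4⟩, h5⟩ := hx0 x hx
  have h6 : 0 < x ^ k := pow_pos h5 k
  rw [eval_pow, eval_X] at h3 h4
  exact ⟨((lt_div_iff₀ h6).1 h3).le, ((div_lt_iff₀ h6).1 h4).le⟩

theorem polyR_coeff (P : Polynomial ℝ) (m : ℕ) (hm : P.natDegree = m + 1) :
    (derivative P ^ 2 - P * derivative (derivative P)).natDegree ≤ 2 * m ∧
      (derivative P ^ 2 - P * derivative (derivative P)).coeff (2 * m) = P.leadingCoeff ^ 2 * (m + 1) := by
  have h1 : (derivative P).natDegree ≤ m := by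
    have := natDegree_derivative_le P
    omega
  have h2 : (derivative P).coeff m = P.leadingCoeff * (m + 1) := by
    rw [coeff_derivative, leadingCoeff, hm]
  have h3 : (derivative P ^ 2).natDegree ≤ 2 * m := by
    refine (natDegree_pow_le).trans ?_
    omega
  have h4 : (derivative P ^ 2).coeff (2 * m) = (P.leadingCoeff * (m + 1)) ^ 2 := by
    rw [sq, two_mul, coeff_mul_add_eq_of_natDegree_le h1 h1, h2, sq]
  rcases Nat.eq_zero_or_pos m with h0 | h0
  · subst h0
    have h5 : derivative (derivative P) = 0 := by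
      rw [eq_C_of_natDegree_le_zero h1, derivative_C]
    rw [h5, mul_zero, sub_zero]
    refine ⟨h3, ?_⟩
    rw [h4]
    push_cast
    ring
  · obtain ⟨k, rfl⟩ : ∃ k, m = k + 1 := ⟨m - 1, by omega⟩
    have h5 : (derivative (derivative P)).natDegree ≤ k := by
      have := natDegree_derivative_le (derivative P)
      omega
    have h6 : (derivative (derivative P)).coeff k = P.leadingCoeff * ((k + 1 : ℕ) + 1) * (k + 1) := by
      rw [coeff_derivative, h2]
    have h7 : (P * derivative (derivative P)).natDegree ≤ 2 * (k + 1) := by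
      refine natDegree_mul_le.trans ?_
      omega
    have h8 : (P * derivative (derivative P)).coeff (2 * (k + 1)) =
        P.leadingCoeff * (P.leadingCoeff * ((k + 1 : ℕ) + 1) * (k + 1)) := by
      rw [show 2 * (k + 1) = (k + 1 + 1) + k by ring, coeff_mul_add_eq_of_natDegree_le hm.le h5, h6, leadingCoeff, hm]
    refine ⟨(natDegree_sub_le _ _).trans (max_le h3 h7), ?_⟩
    rw [coeff_sub, h4, h8]
    push_cast
    ring

theorem polyR (P : Polynomial ℝ) (hP : 1 ≤ P.natDegree) (hl : 0 < P.leadingCoeff) :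
    ∃ (c : ℝ) (N0 : ℕ), Times P.natDegree c N0 (fun n => P.eval (n : ℝ)) := by
  obtain ⟨m, hm⟩ : ∃ m, P.natDegree = m + 1 := ⟨P.natDegree - 1, by omega⟩
  set l : ℝ := P.leadingCoeff with hldef
  have hPc : P.coeff (m + 1) = l := by rw [hldef, leadingCoeff, hm]
  have hP1 : (derivative P).natDegree ≤ m := by
    have := natDegree_derivative_le P
    omega
  have hP1c : (derivative P).coeff m = l * (m + 1) := by rw [coeff_derivative, hPc]
  obtain ⟨hQ, hQc⟩ := polyR_coeff P m hm
  rw [← hldef] at hQc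
  have hm1 : (1 : ℝ) ≤ m + 1 := by
    have : (0 : ℝ) ≤ m := m.cast_nonneg
    linarith
  obtain ⟨x1, hx1⟩ := polyR_asym P (m + 1) hm.le (by rw [hPc]; exact hl)
  obtain ⟨x2, hx2⟩ := polyR_asym (derivative P) m hP1 (by rw [hP1c]; positivity)
  obtain ⟨x3, hx3⟩ := polyR_asym _ (2 * m) hQ (by rw [hQc]; positivity)
  rw [hPc] at hx1
  rw [hP1c] at hx2
  rw [hQc] at hx3
  set x0 : ℝ := max 1 (max x1 (max x2 x3)) with hx0
  have h01 : (1 : ℝ) ≤ x0 := le_max_left _ _
  have h02 : x1 ≤ x0 := (le_max_left _ _).trans (le_max_right _ _)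
  have h03 : x2 ≤ x0 := ((le_max_left _ _).trans (le_max_right _ _)).trans (le_max_right _ _)
  have h04 : x3 ≤ x0 := ((le_max_right _ _).trans (le_max_right _ _)).trans (le_max_right _ _)
  have hpos : ∀ x : ℝ, x0 ≤ x → 0 < P.eval x := fun x hx => by
    have hx' : 0 < x := by linarith
    exact lt_of_lt_of_le (by positivity) (hx1 x (h02.trans hx)).1
  have hpos' : ∀ x : ℝ, x0 ≤ x → 0 ≤ (derivative P).eval x := fun x hx => by
    have hx' : 0 < x := by linarith
    exact le_trans (by positivity) (hx2 x (h03.trans hx)).1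
  -- the logarithmic derivative
  have hq : ∀ N x y : ℝ, x0 ≤ N → N ≤ x → x ≤ y → y ≤ 2 * N →
      (derivative P).eval y / P.eval y - (derivative P).eval x / P.eval x ≤ -(1 / (32 * N ^ 2)) * (y - x) := by
    intro N x y hN hx hxy hy
    have hd : ∀ z ∈ Set.Icc N (2 * N), HasDerivAt (fun z : ℝ => (derivative P).eval z / P.eval z)
        (((derivative (derivative P)).eval z * P.eval z - (derivative P).eval z * (derivative P).eval z) / P.eval z ^ 2) z := by
      intro z hz
      exact ((derivative P).hasDerivAt z).div (P.hasDerivAt z) (hpos z (hN.trans hz.1)).ne'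
    refine (convex_Icc N (2 * N)).image_sub_le_mul_sub_of_deriv_le
      (f := fun z : ℝ => (derivative P).eval z / P.eval z)
      (fun z hz => (hd z hz).continuousAt.continuousWithinAt)
      (fun z hz => (hd z (interior_subset hz)).differentiableAt.differentiableWithinAt) ?_ x ⟨hx, by linarith⟩ y
      ⟨by linarith, hy⟩ hxy
    intro z hz
    have hz' := interior_subset hz
    rw [(hd z hz').deriv]
    have hzp : x0 ≤ z := hN.trans hz'.1
    have hz0 : 0 < z := by linarith
    have hN0 : 0 < N := by linarith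
    have hPz := hpos z hzp
    have hb := (hx1 z (h02.trans hzp)).2
    have hc := (hx3 z (h04.trans hzp)).1
    rw [eval_sub, eval_pow, eval_mul] at hc
    have e1 : P.eval z ^ 2 ≤ (2 * l * z ^ (m + 1)) ^ 2 := pow_le_pow_left₀ hPz.le hb 2
    rw [div_le_iff₀ (by positivity)]
    have e2 : 1 / (32 * N ^ 2) * P.eval z ^ 2 ≤ 1 / (8 * z ^ 2) * (2 * l * z ^ (m + 1)) ^ 2 := by
      refine mul_le_mul ?_ e1 (by positivity) (by positivity)
      rw [div_le_div_iff₀ (by positivity) (by positivity)]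
      have : z ≤ 2 * N := hz'.2
      nlinarith
    have e3 : 1 / (8 * z ^ 2) * (2 * l * z ^ (m + 1)) ^ 2 = l ^ 2 * 1 / 2 * z ^ (2 * m) := by
      field_simp
      ring
    have e4 : l ^ 2 * 1 / 2 * z ^ (2 * m) ≤ l ^ 2 * (m + 1) / 2 * z ^ (2 * m) := by
      gcongr
    nlinarith
  have hmono : ∀ x y : ℝ, x0 ≤ x → x ≤ y → P.eval x ≤ P.eval y := by
    intro x y hx hxy
    have := (convex_Ici x0).mul_sub_le_image_sub_of_le_deriv (f := fun z : ℝ => P.eval z) (C := 0)
      (fun z _ => (P.hasDerivAt z).continuousAt.continuousWithinAt)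
      (fun z _ => (P.hasDerivAt z).differentiableAt.differentiableWithinAt) (fun z hz => by
        rw [(P.hasDerivAt z).deriv]
        exact hpos' z (interior_subset hz)) x hx y (hx.trans hxy) hxy
    linarith
  have hc1 : 0 < 1 / (2 ^ (m + 2) * l) := by positivity
  refine ⟨min (1 / 32) (min (l / 2) (1 / (2 ^ (m + 2) * l))), ⌈x0⌉₊, ?_⟩
  have hNx : ∀ N : ℕ, ⌈x0⌉₊ ≤ N → x0 ≤ (N : ℝ) := fun N hN => (Nat.le_ceil x0).trans (by exact_mod_cast hN)
  set c : ℝ := min (1 / 32) (min (l / 2) (1 / (2 ^ (m + 2) * l))) with hcdef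
  have hc32 : c ≤ 1 / 32 := min_le_left _ _
  have hcl : c ≤ l / 2 := (min_le_right _ _).trans (min_le_left _ _)
  have hcu : c ≤ 1 / (2 ^ (m + 2) * l) := (min_le_right _ _).trans (min_le_right _ _)
  have hc0 : 0 < c := lt_min (by norm_num) (lt_min (by positivity) hc1)
  refine ⟨hP, hc0, hc32.trans (by norm_num), ?_, ?_, ?_, ?_⟩
  · intro N n hN hn hn2
    rw [hm]
    have hNr := hNx N hN
    have hnr : (N : ℝ) ≤ n := by exact_mod_cast hn.le
    have hN0 : (0 : ℝ) ≤ N := N.cast_nonneg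
    refine le_trans ?_ (hx1 n (h02.trans (hNr.trans hnr))).1
    exact mul_le_mul hcl (pow_le_pow_left₀ hN0 hnr _) (by positivity) (by positivity)
  · intro N n hN hn hn2
    rw [hm]
    have hNr := hNx N hN
    have hnr : (N : ℝ) ≤ n := by exact_mod_cast hn.le
    have hnr2 : (n : ℝ) ≤ 2 * N := by exact_mod_cast hn2
    have hN0 : (0 : ℝ) ≤ N := N.cast_nonneg
    refine le_trans (hx1 n (h02.trans (hNr.trans hnr))).2 ?_
    have e1 : (n : ℝ) ^ (m + 1) ≤ (2 * N) ^ (m + 1) := pow_le_pow_left₀ (hN0.trans hnr) hnr2 _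
    have e2 : 2 ^ (m + 2) * l ≤ c⁻¹ := by
      rw [le_inv_comm₀ (by positivity) hc0, ← one_div]
      exact hcu
    calc 2 * l * (n : ℝ) ^ (m + 1) ≤ 2 * l * (2 * N) ^ (m + 1) := by gcongr
      _ = 2 ^ (m + 2) * l * N ^ (m + 1) := by ring
      _ ≤ c⁻¹ * N ^ (m + 1) := by gcongr
  · intro N n h hN hn hh hn2
    rw [hm, Nat.add_sub_cancel]
    have hNr := hNx N hN
    have hnr : (N : ℝ) ≤ n := by exact_mod_cast hn.le
    have hN0 : (0 : ℝ) ≤ N := N.cast_nonneg
    have key := (convex_Ici (N : ℝ)).mul_sub_le_image_sub_of_le_deriv (f := fun z : ℝ => P.eval z)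
      (C := c * (N : ℝ) ^ m)
      (fun z _ => (P.hasDerivAt z).continuousAt.continuousWithinAt)
      (fun z _ => (P.hasDerivAt z).differentiableAt.differentiableWithinAt) (fun z hz => by
        rw [(P.hasDerivAt z).deriv]
        have hz' : (N : ℝ) ≤ z := interior_subset hz
        refine le_trans ?_ (hx2 z (h03.trans (hNr.trans hz'))).1
        refine mul_le_mul (hcl.trans ?_) (pow_le_pow_left₀ hN0 hz' _) (by positivity) (by positivity)
        nlinarith) n hnr (n + h) (by
          have : (0 : ℝ) ≤ h := h.cast_nonneg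
          exact (by linarith : (N : ℝ) ≤ (n : ℝ) + h)) (by
          have : (0 : ℝ) ≤ h := h.cast_nonneg
          linarith)
    have e : ((n + h : ℕ) : ℝ) = (n : ℝ) + h := by push_cast; ring
    simp only [e]
    calc c * (h : ℝ) * (N : ℝ) ^ m = c * (N : ℝ) ^ m * ((n : ℝ) + h - n) := by ring
      _ ≤ _ := key
  · intro N n n' h hN hn hnn hh hn2
    have hNr := hNx N hN
    have hnr : (N : ℝ) ≤ n := by exact_mod_cast hn.le
    have hN1 : (0 : ℝ) < N := by linarith
    have hnn' : (n : ℝ) ≤ n' := by exact_mod_cast hnn.le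
    have hh0 : (0 : ℝ) ≤ h := h.cast_nonneg
    have hn2' : (n' : ℝ) + h ≤ 2 * N := by exact_mod_cast hn2
    have hd : ∀ z ∈ Set.Icc (n : ℝ) n', HasDerivAt (fun z : ℝ => P.eval (z + h) / P.eval z)
        (((derivative P).eval (z + h) * P.eval z - P.eval (z + h) * (derivative P).eval z) / P.eval z ^ 2) z := by
      intro z hz
      have hz0 := hpos z (hNr.trans (hnr.trans hz.1))
      have e := (P.hasDerivAt (z + h)).comp_add_const z (h : ℝ)
      exact e.div (P.hasDerivAt z) hz0.ne'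
    have key := (convex_Icc (n : ℝ) n').image_sub_le_mul_sub_of_deriv_le
      (f := fun z : ℝ => P.eval (z + h) / P.eval z) (C := -(h / (32 * (N : ℝ) ^ 2)))
      (fun z hz => (hd z hz).continuousAt.continuousWithinAt)
      (fun z hz => (hd z (interior_subset hz)).differentiableAt.differentiableWithinAt) (fun z hz => by
        have hz' := interior_subset hz
        rw [(hd z hz').deriv]
        have hz1 : x0 ≤ z := hNr.trans (hnr.trans hz'.1)
        have hz0 := hpos z hz1
        have hzh := hpos (z + h) (by linarith)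
        have hq1 := hq N z (z + h) hNr (hnr.trans hz'.1) (by linarith) (by linarith [hz'.2])
        have e1 : ((derivative P).eval (z + h) * P.eval z - P.eval (z + h) * (derivative P).eval z) / P.eval z ^ 2 =
            P.eval (z + h) / P.eval z *
              ((derivative P).eval (z + h) / P.eval (z + h) - (derivative P).eval z / P.eval z) := by
          field_simp
        rw [e1]
        have e2 : -(1 / (32 * (N : ℝ) ^ 2)) * (z + h - z) = -(h / (32 * (N : ℝ) ^ 2)) := by
          ring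
        rw [e2] at hq1
        have e3 : 0 ≤ (h : ℝ) / (32 * (N : ℝ) ^ 2) := by positivity
        have e4 : 1 ≤ P.eval (z + h) / P.eval z := by
          rw [one_le_div hz0]
          exact hmono z (z + h) hz1 (by linarith)
        calc P.eval (z + h) / P.eval z *
              ((derivative P).eval (z + h) / P.eval (z + h) - (derivative P).eval z / P.eval z)
            ≤ 1 * ((derivative P).eval (z + h) / P.eval (z + h) - (derivative P).eval z / P.eval z) :=
              mul_le_mul_of_nonpos_right e4 (by linarith)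
          _ ≤ _ := by rw [one_mul]; exact hq1) n ⟨le_refl _, hnn'⟩ n' ⟨hnn', le_refl _⟩ hnn'
    have e : ((n + h : ℕ) : ℝ) = (n : ℝ) + h := by push_cast; ring
    have e' : ((n' + h : ℕ) : ℝ) = (n' : ℝ) + h := by push_cast; ring
    simp only [e, e']
    have key' : c * ((n' : ℝ) - n) * h / (N : ℝ) ^ 2 ≤ h / (32 * (N : ℝ) ^ 2) * ((n' : ℝ) - n) := by
      rw [show (h : ℝ) / (32 * (N : ℝ) ^ 2) * ((n' : ℝ) - n) = 1 / 32 * ((n' : ℝ) - n) * h / (N : ℝ) ^ 2 by
        field_simp]
      have : 0 ≤ (n' : ℝ) - n := by linarith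
      gcongr
    linarith

end Pool.Agent.GTC
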