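import Mathlib
import Pool.Agent.GTC.TDefs
import Pool.Agent.GT.Ops
import Pool.Agent.GT.Osc
import Pool.Agent.GT.Blk
import Pool.Agent.GTC.MaxC

/-!
# GTC/Smc: the smoothed function may be replaced by its limit

Let `N = 2^k`, `U = N^d`, `n ∈ I k`, `y = S^n x`, `t = β p(n) ∈ [0, 2 c⁻¹ U]` for `k` large (`β ∈ [1, 2]`, `Times.lower`, `Times.upper`).

(A) Choose `D` with `2^(D+1) ≥ 2 c⁻¹` and apply `GT.osc D` with this `U` (`GT.osc` holds for every `U > 0`): `‖Kop U f (φ_t y) - Kop U f y‖ ≤ ∑_i Δ_i^k(y)`.  As in `GT/Blk.lean` (copy the argument),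
`∑_k ∫⁻ (∑_i Δ_i^k)² < ∞`.  By Cauchy–Schwarz and `S`-invariance `∫⁻ (2^(-k) ∑_{n ∈ I k} G(S^n x))² ≤ 4 ∫⁻ G²` for measurable `G ≥ 0` (`#I k ≤ 2^k + 1 ≤ 2·2^k`), so
`∑_k ∫⁻ (2^(-k) ∑_{n ∈ I k} ∑_i Δ_i^k(S^n x))² < ∞` and `2^(-k) ∑_{n ∈ I k} ∑_i Δ_i^k(S^n x) → 0` for almost every `x`.

(B) `2^(-k) ∑_{n ∈ I k} ‖Kop U_k f (S^n x) - fs (S^n x)‖ → 0` for almost every `x`: let `E_K(y) = ⨆_{k ≥ K} ‖Kop U_k f y - fs y‖ₑ ≤ 2B`, decreasing in `K`, `E_K → 0` almost everywhere (`hlim`), so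
`∫⁻ E_K² → 0` (dominated convergence).  For `k ≥ K` the average is at most `C' M(E_K)(x)`, `M v(x) = ⨆_N (2N+1)⁻¹ ∑_{|n| ≤ N} v(S^n x)` (take `N = 2·2^k`), and
`∫⁻ (M E_K)² ≤ C ∫⁻ E_K² → 0` (`maxC` with `β = 0`; `φ_0 = id`).  `M E_K` is decreasing in `K`, so `M E_K → 0` almost everywhere (its infimum has zero square integral).

Together: for almost every `x`, for ALL `β ∈ [1, 2]`, `2^(-k) ∑_{n ∈ I k} ‖Kop U_k f (φ(β p(n)) S^n x) - fs (S^n x)‖ → 0`.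
-/

namespace Pool.Agent.GTC

open MeasureTheory Filter Topology Pool.Agent.GT

private theorem Smc_le {c : ENNReal} (hc : c ≠ 0) (hc' : c ≠ ⊤) (a : ENNReal) : a ≤ c + c⁻¹ * a ^ 2 := by
  rcases le_total a c with h | h
  · exact h.trans le_self_add
  · refine le_trans ?_ le_add_self
    calc a = c⁻¹ * (c * a) := by rw [← mul_assoc, ENNReal.inv_mul_cancel hc hc', one_mul]
      _ ≤ c⁻¹ * a ^ 2 := by
        rw [sq]
        gcongr

/-- a sum is controlled by the weighted sum of squares -/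
private theorem Smc_sum {e : ENNReal} (he0 : e ≠ 0) (he1 : e ≠ ⊤) (Δ : ℕ → ENNReal) :
    ∑' i, Δ i ≤ e * 2 + e⁻¹ * ∑' i, 2 ^ i * Δ i ^ 2 := by
  have hc0 : ∀ i : ℕ, e * 2⁻¹ ^ i ≠ 0 := fun i =>
    mul_ne_zero he0 (pow_ne_zero _ (ENNReal.inv_ne_zero.2 (by norm_num)))
  have hc1 : ∀ i : ℕ, e * 2⁻¹ ^ i ≠ ⊤ := fun i =>
    ENNReal.mul_ne_top he1 (ENNReal.pow_ne_top (ENNReal.inv_ne_top.2 (by norm_num)))
  have hinv : ∀ i : ℕ, (e * 2⁻¹ ^ i)⁻¹ = e⁻¹ * 2 ^ i := by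
    intro i
    rw [ENNReal.mul_inv (Or.inl he0) (Or.inl he1), ENNReal.inv_pow, inv_inv]
  calc ∑' i, Δ i ≤ ∑' i, (e * 2⁻¹ ^ i + (e * 2⁻¹ ^ i)⁻¹ * Δ i ^ 2) :=
        ENNReal.tsum_le_tsum fun i => Smc_le (hc0 i) (hc1 i) _
    _ = e * 2 + e⁻¹ * ∑' i, 2 ^ i * Δ i ^ 2 := by
        rw [ENNReal.tsum_add, ENNReal.tsum_mul_left, ENNReal.tsum_geometric, ENNReal.one_sub_inv_two,
          inv_inv, ← ENNReal.tsum_mul_left]
        congr 2
        funext i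
        rw [hinv, mul_assoc]

/-- telescoping -/
private theorem Smc_tele {α : ℕ → ℝ} (hanti : Antitone α) (h0 : ∀ j, 0 ≤ α j) {d : ℕ} (hd : 1 ≤ d) (i : ℕ)
    {A : ℝ} (hA : α i ≤ A) :
    ∑' k : ℕ, ENNReal.ofReal (α (i + d * k) - α (i + d * k + 1)) ≤ ENNReal.ofReal A := by
  refine ENNReal.tsum_le_of_sum_range_le fun n => ?_
  rw [← ENNReal.ofReal_sum_of_nonneg (fun k _ => sub_nonneg.2 (hanti (Nat.le_succ _)))]
  refine ENNReal.ofReal_le_ofReal ?_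
  have h1 : ∀ n : ℕ, ∑ k ∈ Finset.range n, (α (i + d * k) - α (i + d * k + 1)) ≤ α i - α (i + d * n) := by
    intro n
    induction n with
    | zero => simp
    | succ n ih =>
      rw [Finset.sum_range_succ]
      have h2 : α (i + d * (n + 1)) ≤ α (i + d * n + 1) := hanti (by
        rw [mul_add, mul_one]
        omega)
      linarith
  have h3 := h1 n
  have h4 := h0 (i + d * n)
  linarith

/-- the average over a block -/
private noncomputable def Smc_av {X : Type*} (S : Equiv.Perm X) (I : ℕ → Finset ℕ) (k : ℕ) (G : X → ENNReal) (x : X) :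
    ENNReal :=
  ((2 ^ k : ℕ) : ENNReal)⁻¹ * ∑ n ∈ I k, G ((S ^ n) x)

private theorem Smc_card {I : ℕ → Finset ℕ} (hI : ∀ k, ∀ n ∈ I k, 2 ^ k < n ∧ n ≤ 2 * 2 ^ k) (k : ℕ) :
    (I k).card ≤ 2 ^ k := by
  have h1 : I k ⊆ Finset.Ioc (2 ^ k) (2 * 2 ^ k) := fun n hn => Finset.mem_Ioc.2 (hI k n hn)
  have h2 := Finset.card_le_card h1
  rw [Nat.card_Ioc] at h2
  omega

private theorem Smc_inv_mul (k : ℕ) : ((2 ^ k : ℕ) : ENNReal)⁻¹ * ((2 ^ k : ℕ) : ENNReal) = 1 :=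
  ENNReal.inv_mul_cancel (Nat.cast_ne_zero.2 (by positivity)) (ENNReal.natCast_ne_top _)

private theorem Smc_av_const {X : Type*} (S : Equiv.Perm X) {I : ℕ → Finset ℕ}
    (hI : ∀ k, ∀ n ∈ I k, 2 ^ k < n ∧ n ≤ 2 * 2 ^ k) (k : ℕ) {G H : X → ENNReal} {a b : ENNReal}
    (h : ∀ y, G y ≤ a + b * H y) (x : X) : Smc_av S I k G x ≤ a + b * Smc_av S I k H x := by
  unfold Smc_av
  calc ((2 ^ k : ℕ) : ENNReal)⁻¹ * ∑ n ∈ I k, G ((S ^ n) x)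
      ≤ ((2 ^ k : ℕ) : ENNReal)⁻¹ * ∑ n ∈ I k, (a + b * H ((S ^ n) x)) := by
        gcongr with n hn
        exact h _
    _ = ((2 ^ k : ℕ) : ENNReal)⁻¹ * ((I k).card * a + b * ∑ n ∈ I k, H ((S ^ n) x)) := by
        rw [Finset.sum_add_distrib, Finset.sum_const, nsmul_eq_mul, Finset.mul_sum]
    _ ≤ ((2 ^ k : ℕ) : ENNReal)⁻¹ * (((2 ^ k : ℕ) : ENNReal) * a + b * ∑ n ∈ I k, H ((S ^ n) x)) := by
        gcongr
        exact Smc_card hI k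
    _ = (((2 ^ k : ℕ) : ENNReal)⁻¹ * ((2 ^ k : ℕ) : ENNReal)) * a +
          b * (((2 ^ k : ℕ) : ENNReal)⁻¹ * ∑ n ∈ I k, H ((S ^ n) x)) := by ring
    _ = _ := by rw [Smc_inv_mul, one_mul]

private theorem Smc_av_meas {X : Type*} [MeasurableSpace X] {μ : Measure X} {φ : ℝ → X → X} {S : Equiv.Perm X}
    (hS : Comm μ φ S) (I : ℕ → Finset ℕ) (k : ℕ) {G : X → ENNReal} (hG : Measurable G) :
    Measurable (Smc_av S I k G) :=
  (Finset.measurable_sum _ fun n _ => hG.comp (hS.pow n).meas).const_mul _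

private theorem Smc_av_int {X : Type*} [MeasurableSpace X] {μ : Measure X} {φ : ℝ → X → X} {S : Equiv.Perm X}
    (hS : Comm μ φ S) {I : ℕ → Finset ℕ}
    (hI : ∀ k, ∀ n ∈ I k, 2 ^ k < n ∧ n ≤ 2 * 2 ^ k) (k : ℕ) {G : X → ENNReal} (hG : Measurable G) :
    ∫⁻ x, Smc_av S I k G x ∂μ ≤ ∫⁻ x, G x ∂μ := by
  have hm : ∀ n : ℕ, Measurable fun x => G ((S ^ n) x) := fun n => hG.comp (hS.pow n).meas
  unfold Smc_av
  rw [lintegral_const_mul _ (Finset.measurable_sum _ fun n _ => hm n),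
    lintegral_finsetSum _ fun n _ => hm n]
  have h1 : ∀ n ∈ I k, ∫⁻ x, G ((S ^ n) x) ∂μ = ∫⁻ x, G x ∂μ := fun n _ =>
    (hS.pow n).mp.lintegral_comp hG
  rw [Finset.sum_congr rfl h1, Finset.sum_const, nsmul_eq_mul]
  calc ((2 ^ k : ℕ) : ENNReal)⁻¹ * (((I k).card : ENNReal) * ∫⁻ x, G x ∂μ)
      ≤ ((2 ^ k : ℕ) : ENNReal)⁻¹ * (((2 ^ k : ℕ) : ENNReal) * ∫⁻ x, G x ∂μ) := by
        gcongr
        exact Smc_card hI k
    _ = _ := by rw [← mul_assoc, Smc_inv_mul, one_mul]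

/-- part (A) -/
private theorem Smc_A {d : ℕ} (hd : 1 ≤ d) (D : ℕ) {X : Type*} [MeasurableSpace X]
    {μ : Measure X} [IsFiniteMeasure μ] {φ : ℝ → X → X} (hφ : IsFlow μ φ) {S : Equiv.Perm X} (hS : Comm μ φ S)
    {f : X → ℂ} {B L : ℝ} (hf : Nice φ B L f)
    {I : ℕ → Finset ℕ} (hI : ∀ k, ∀ n ∈ I k, 2 ^ k < n ∧ n ≤ 2 * 2 ^ k) :
    ∃ G : ℕ → X → ENNReal,
      (∀ k x t, 0 ≤ t → t ≤ 2 ^ (D + 1) * ((2 ^ k : ℕ) : ℝ) ^ d →
        ‖Kop φ (((2 ^ k : ℕ) : ℝ) ^ d) f (φ t x) - Kop φ (((2 ^ k : ℕ) : ℝ) ^ d) f x‖ₑ ≤ G k x) ∧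
      ∀ᵐ x ∂μ, Tendsto (fun k => Smc_av S I k (G k) x) atTop (𝓝 0) := by
  have hU : ∀ k : ℕ, (0 : ℝ) < ((2 ^ k : ℕ) : ℝ) ^ d := fun k => by positivity
  have hUe : ∀ k i : ℕ, (2 : ℝ) ^ i * ((2 ^ k : ℕ) : ℝ) ^ d = 2 ^ (i + d * k) := by
    intro k i
    rw [Nat.cast_pow, Nat.cast_ofNat, ← pow_mul, pow_add, mul_comm k d]
  obtain ⟨C, hC, ho⟩ := osc D
  choose Δ hΔm hΔ1 hΔ2 using fun k : ℕ => ho X μ φ hφ f B L hf _ (hU k)
  -- the sequence of energies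
  have hanti : Antitone fun j : ℕ => al μ φ f (2 ^ j) := by
    refine antitone_nat_of_succ_le fun j => ?_
    have h1 := zz_l2 hφ hf (M := (2 : ℝ) ^ j) (by positivity)
    have h2 : 0 ≤ ∫ x, ‖zz φ ((2 : ℝ) ^ j) f x‖ ^ 2 ∂μ := integral_nonneg fun x => sq_nonneg _
    have h3 : (2 : ℝ) ^ (j + 1) = 2 * 2 ^ j := by ring
    show al μ φ f (2 ^ (j + 1)) ≤ al μ φ f (2 ^ j)
    rw [h3]
    linarith
  have hA : ∀ j : ℕ, al μ φ f (2 ^ j) ≤ ∫ x, ‖f x‖ ^ 2 ∂μ := fun j => al_le hφ hf (by positivity)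
  -- the sum of the integrals is finite
  have hm : ∀ k i, Measurable fun x => (2 : ENNReal) ^ i * Δ k i x ^ 2 := fun k i =>
    ((hΔm k i).pow_const 2).const_mul _
  have hmQ : ∀ k, Measurable fun x => ∑' i, (2 : ENNReal) ^ i * Δ k i x ^ 2 := fun k =>
    Measurable.tsum fun i => hm k i
  have hsum : ∑' k, ∫⁻ x, ∑' i, 2 ^ i * Δ k i x ^ 2 ∂μ ≠ ⊤ := by
    have h1 : ∀ k, ∫⁻ x, ∑' i, 2 ^ i * Δ k i x ^ 2 ∂μ ≤ ∑' i : ℕ, ENNReal.ofReal (C * (1 / 2) ^ i) *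
        ENNReal.ofReal (al μ φ f (2 ^ (i + d * k)) - al μ φ f (2 ^ (i + d * k + 1))) := by
      intro k
      rw [lintegral_tsum fun i => (hm k i).aemeasurable]
      refine ENNReal.tsum_le_tsum fun i => ?_
      rw [lintegral_const_mul _ ((hΔm k i).pow_const 2)]
      have h2 := hΔ2 k i
      have h3 : (2 : ℝ) ^ (i + 1) * ((2 ^ k : ℕ) : ℝ) ^ d = 2 ^ (i + d * k + 1) := by
        rw [hUe, show i + 1 + d * k = i + d * k + 1 by omega]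
      rw [hUe, h3] at h2
      calc (2 : ENNReal) ^ i * ∫⁻ x, Δ k i x ^ 2 ∂μ
          ≤ 2 ^ i * ENNReal.ofReal (C * (1 / 4) ^ i *
            (al μ φ f (2 ^ (i + d * k)) - al μ φ f (2 ^ (i + d * k + 1)))) := by gcongr
        _ = ENNReal.ofReal (C * (1 / 2) ^ i) *
            ENNReal.ofReal (al μ φ f (2 ^ (i + d * k)) - al μ φ f (2 ^ (i + d * k + 1))) := by
            have h4 : (2 : ENNReal) ^ i = ENNReal.ofReal (2 ^ i) := by
              rw [ENNReal.ofReal_pow (by norm_num), ENNReal.ofReal_ofNat]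
            rw [h4, ← ENNReal.ofReal_mul (by positivity), ← ENNReal.ofReal_mul (by positivity)]
            congr 1
            have h5 : (1 / 2 : ℝ) ^ i = 2 ^ i * (1 / 4) ^ i := by
              rw [← mul_pow]
              norm_num
            rw [h5]
            ring
    have h6 : ∑' k, ∫⁻ x, ∑' i, 2 ^ i * Δ k i x ^ 2 ∂μ ≤
        ∑' i : ℕ, ENNReal.ofReal (C * (1 / 2) ^ i) * ENNReal.ofReal (∫ x, ‖f x‖ ^ 2 ∂μ) := by
      refine (ENNReal.tsum_le_tsum h1).trans ?_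
      rw [ENNReal.tsum_comm]
      refine ENNReal.tsum_le_tsum fun i => ?_
      rw [ENNReal.tsum_mul_left]
      gcongr
      exact Smc_tele hanti (fun j => al_nonneg f _) hd i (hA i)
    refine (h6.trans_lt ?_).ne
    rw [ENNReal.tsum_mul_right]
    refine ENNReal.mul_lt_top ?_ ENNReal.ofReal_lt_top
    have h7 : Summable fun i : ℕ => C * (1 / 2 : ℝ) ^ i := summable_geometric_two.mul_left C
    rw [← ENNReal.ofReal_tsum_of_nonneg (fun i => by positivity) h7]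
    exact ENNReal.ofReal_lt_top
  -- the averages of the quadratic sums tend to zero
  set Q : ℕ → X → ENNReal := fun k x => ∑' i, (2 : ENNReal) ^ i * Δ k i x ^ 2 with hQ
  have hQs : ∫⁻ x, ∑' k, Smc_av S I k (Q k) x ∂μ ≠ ⊤ := by
    rw [lintegral_tsum fun k => (Smc_av_meas hS I k (hmQ k)).aemeasurable]
    refine ne_top_of_le_ne_top hsum ?_
    exact ENNReal.tsum_le_tsum fun k => Smc_av_int hS hI k (hmQ k)
  have hQm : Measurable fun x => ∑' k, Smc_av S I k (Q k) x :=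
    Measurable.tsum fun k => Smc_av_meas hS I k (hmQ k)
  refine ⟨fun k x => ∑' i, Δ k i x, fun k x t ht0 ht1 => hΔ1 k x t ht0 ht1, ?_⟩
  filter_upwards [ae_lt_top hQm hQs] with x hx
  have hx1 : Tendsto (fun k => Smc_av S I k (Q k) x) atTop (𝓝 0) :=
    ENNReal.tendsto_atTop_zero_of_tsum_ne_top hx.ne
  rw [ENNReal.tendsto_nhds_zero] at hx1 ⊢
  intro ε hε
  obtain ⟨e, he0, he1, heε⟩ : ∃ e : ENNReal, e ≠ 0 ∧ e ≠ ⊤ ∧ 3 * e ≤ ε := by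
    refine ⟨min ε 1 / 3, ?_, ?_, ?_⟩
    · refine (ENNReal.div_pos ?_ (by norm_num)).ne'
      exact (lt_min hε one_pos).ne'
    · refine (ENNReal.div_lt_top ?_ (by norm_num)).ne
      exact ((min_le_right _ _).trans_lt ENNReal.one_lt_top).ne
    · rw [ENNReal.mul_div_cancel (by norm_num) (by norm_num)]
      exact min_le_left _ _
  filter_upwards [hx1 (e * e) (by
    have := mul_ne_zero he0 he0
    exact pos_iff_ne_zero.2 this)] with k hk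
  calc Smc_av S I k (fun x => ∑' i, Δ k i x) x ≤ e * 2 + e⁻¹ * Smc_av S I k (Q k) x :=
        Smc_av_const S hI k (fun y => Smc_sum he0 he1 fun i => Δ k i y) x
    _ ≤ e * 2 + e⁻¹ * (e * e) := by gcongr
    _ = 3 * e := by
        rw [← mul_assoc, ENNReal.inv_mul_cancel he0 he1, one_mul]
        ring
    _ ≤ ε := heε

/-- the maximal function of the averages along `S` -/
private noncomputable def Smc_M {X : Type*} (S : Equiv.Perm X) (v : X → ENNReal) (x : X) : ENNReal :=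
  ⨆ N : ℕ, ((2 * N + 1 : ℕ) : ENNReal)⁻¹ * ∑ n ∈ Finset.Icc (-(N : ℤ)) (N : ℤ), v ((S ^ n) x)

private theorem Smc_M_meas {X : Type*} [MeasurableSpace X] {μ : Measure X} {φ : ℝ → X → X} {S : Equiv.Perm X}
    (hS : Comm μ φ S) {v : X → ENNReal} (hv : Measurable v) : Measurable (Smc_M S v) :=
  Measurable.iSup fun _ => (Finset.measurable_sum _ fun n _ => hv.comp (hS.zpow n).meas).const_mul _

private theorem Smc_av_le {X : Type*} (S : Equiv.Perm X) {I : ℕ → Finset ℕ}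
    (hI : ∀ k, ∀ n ∈ I k, 2 ^ k < n ∧ n ≤ 2 * 2 ^ k) (k : ℕ) (v : X → ENNReal) (x : X) :
    Smc_av S I k v x ≤ 5 * Smc_M S v x := by
  have h1 : ∑ n ∈ I k, v ((S ^ n) x) ≤
      ∑ n ∈ Finset.Icc (-((2 * 2 ^ k : ℕ) : ℤ)) ((2 * 2 ^ k : ℕ) : ℤ), v ((S ^ n) x) := by
    have h2 : ∑ n ∈ I k, v ((S ^ n) x) = ∑ n ∈ (I k).map Nat.castEmbedding, v ((S ^ (n : ℤ)) x) := by
      rw [Finset.sum_map]
      refine Finset.sum_congr rfl fun n _ => ?_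
      simp
    rw [h2]
    refine Finset.sum_le_sum_of_subset fun m hm => ?_
    rw [Finset.mem_map] at hm
    obtain ⟨n, hn, rfl⟩ := hm
    have h3 := (hI k n hn).2
    rw [Finset.mem_Icc]
    simp only [Nat.castEmbedding_apply]
    constructor
    · have : (0 : ℤ) ≤ (n : ℤ) := Int.natCast_nonneg n
      have h4 : (0 : ℤ) ≤ ((2 * 2 ^ k : ℕ) : ℤ) := Int.natCast_nonneg _
      linarith
    · exact_mod_cast h3
  have h2 : ((2 * (2 * 2 ^ k) + 1 : ℕ) : ENNReal)⁻¹ *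
      ∑ n ∈ Finset.Icc (-((2 * 2 ^ k : ℕ) : ℤ)) ((2 * 2 ^ k : ℕ) : ℤ), v ((S ^ n) x) ≤ Smc_M S v x :=
    le_iSup (fun N : ℕ => ((2 * N + 1 : ℕ) : ENNReal)⁻¹ *
      ∑ n ∈ Finset.Icc (-(N : ℤ)) (N : ℤ), v ((S ^ n) x)) (2 * 2 ^ k)
  have h3 : ((2 * (2 * 2 ^ k) + 1 : ℕ) : ENNReal) ≠ 0 := Nat.cast_ne_zero.2 (by positivity)
  have h4 : ∑ n ∈ Finset.Icc (-((2 * 2 ^ k : ℕ) : ℤ)) ((2 * 2 ^ k : ℕ) : ℤ), v ((S ^ n) x) ≤
      ((2 * (2 * 2 ^ k) + 1 : ℕ) : ENNReal) * Smc_M S v x := by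
    rw [← ENNReal.inv_mul_le_iff h3 (ENNReal.natCast_ne_top _)]
    exact h2
  have h5 : (2 * (2 * 2 ^ k) + 1 : ℕ) ≤ 5 * 2 ^ k := by
    have : 1 ≤ 2 ^ k := Nat.one_le_two_pow
    omega
  unfold Smc_av
  calc ((2 ^ k : ℕ) : ENNReal)⁻¹ * ∑ n ∈ I k, v ((S ^ n) x)
      ≤ ((2 ^ k : ℕ) : ENNReal)⁻¹ * (((2 * (2 * 2 ^ k) + 1 : ℕ) : ENNReal) * Smc_M S v x) := by
        gcongr
        exact h1.trans h4
    _ ≤ ((2 ^ k : ℕ) : ENNReal)⁻¹ * (((5 * 2 ^ k : ℕ) : ENNReal) * Smc_M S v x) := by gcongr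
    _ = (((2 ^ k : ℕ) : ENNReal)⁻¹ * ((2 ^ k : ℕ) : ENNReal)) * (5 * Smc_M S v x) := by
        push_cast
        ring
    _ = 5 * Smc_M S v x := by rw [Smc_inv_mul, one_mul]

/-- part (B), abstract form -/
private theorem Smc_B {X : Type*} [MeasurableSpace X]
    {μ : Measure X} [IsFiniteMeasure μ] {φ : ℝ → X → X} (hφ : IsFlow μ φ) {S : Equiv.Perm X} (hS : Comm μ φ S)
    {w : ℕ → X → ENNReal} (hw : ∀ k, Measurable (w k)) {b : ENNReal} (hb : b ≠ ⊤) (hwb : ∀ k x, w k x ≤ b)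
    (hlim : ∀ᵐ x ∂μ, Tendsto (fun k : ℕ => w k x) atTop (𝓝 0))
    {I : ℕ → Finset ℕ} (hI : ∀ k, ∀ n ∈ I k, 2 ^ k < n ∧ n ≤ 2 * 2 ^ k) :
    ∀ᵐ x ∂μ, Tendsto (fun k => Smc_av S I k (w k) x) atTop (𝓝 0) := by
  obtain ⟨C, hC⟩ := maxC hφ hS 0 0
  set E : ℕ → X → ENNReal := fun K x => ⨆ j : ℕ, w (K + j) x with hE
  have hEm : ∀ K, Measurable (E K) := fun K => Measurable.iSup fun j => hw _
  have hEb : ∀ K x, E K x ≤ b := fun K x => iSup_le fun j => hwb _ _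
  have hE0 : ∀ᵐ x ∂μ, Tendsto (fun K : ℕ => E K x ^ 2) atTop (𝓝 0) := by
    filter_upwards [hlim] with x hx
    have h1 : Tendsto (fun K : ℕ => E K x) atTop (𝓝 0) := by
      rw [ENNReal.tendsto_nhds_zero] at hx ⊢
      intro ε hε
      obtain ⟨K0, hK0⟩ := eventually_atTop.1 (hx ε hε)
      filter_upwards [eventually_ge_atTop K0] with K hK
      exact iSup_le fun j => hK0 _ (by omega)
    have h2 := ENNReal.Tendsto.pow (n := 2) h1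
    simpa using h2
  have hI0 : Tendsto (fun K => ∫⁻ x, E K x ^ 2 ∂μ) atTop (𝓝 0) := by
    have h1 := tendsto_lintegral_of_dominated_convergence (μ := μ) (F := fun K x => E K x ^ 2) (f := fun _ => 0)
      (fun _ => b ^ 2) (fun K => (hEm K).pow_const 2)
      (fun K => Eventually.of_forall fun x => pow_le_pow_left' (hEb K x) 2) (by
        rw [lintegral_const]
        exact ENNReal.mul_ne_top (ENNReal.pow_ne_top hb) (measure_ne_top _ _)) hE0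
    simpa using h1
  have hM : ∀ K, ∫⁻ x, Smc_M S (E K) x ^ 2 ∂μ ≤ C * ∫⁻ x, E K x ^ 2 ∂μ := by
    intro K
    have h1 := hC (E K) (hEm K)
    have h2 : ∀ x, (⨆ N : ℕ, ((2 * N + 1 : ℕ) : ENNReal)⁻¹ *
        ∑ n ∈ Finset.Icc (-(N : ℤ)) (N : ℤ),
          E K (φ (0 * (0 : Polynomial ℝ).eval (n : ℝ)) ((S ^ n) x))) = Smc_M S (E K) x := by
      intro x
      unfold Smc_M
      refine iSup_congr fun N => ?_
      congr 1
      refine Finset.sum_congr rfl fun n _ => ?_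
      rw [zero_mul, hφ.zero]
    simp only [h2] at h1
    exact h1
  have hinf : ∫⁻ x, ⨅ K, Smc_M S (E K) x ^ 2 ∂μ = 0 := by
    have h1 : ∀ K, ∫⁻ x, ⨅ K, Smc_M S (E K) x ^ 2 ∂μ ≤ C * ∫⁻ x, E K x ^ 2 ∂μ := fun K =>
      (lintegral_mono fun x => iInf_le _ K).trans (hM K)
    have h2 : Tendsto (fun K => (C : ENNReal) * ∫⁻ x, E K x ^ 2 ∂μ) atTop (𝓝 0) := by
      have := ENNReal.Tendsto.const_mul hI0 (a := (C : ENNReal)) (Or.inr ENNReal.coe_ne_top)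
      rwa [mul_zero] at this
    exact le_antisymm (ge_of_tendsto' h2 h1) zero_le
  have hinfm : Measurable fun x => ⨅ K, Smc_M S (E K) x ^ 2 :=
    Measurable.iInf fun K => (Smc_M_meas hS (hEm K)).pow_const 2
  rw [lintegral_eq_zero_iff hinfm] at hinf
  filter_upwards [hinf] with x hx
  have hx' : ⨅ K, Smc_M S (E K) x ^ 2 = 0 := hx
  rw [ENNReal.tendsto_nhds_zero]
  intro ε hε
  obtain ⟨e, he0, he1⟩ : ∃ e : ENNReal, 0 < e ∧ 5 * e ≤ ε := by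
    refine ⟨ε / 5, ENNReal.div_pos hε.ne' (by norm_num), ?_⟩
    rw [ENNReal.mul_div_cancel (by norm_num) (by norm_num)]
  have h3 : ⨅ K, Smc_M S (E K) x ^ 2 < e ^ 2 := by
    rw [hx']
    positivity
  obtain ⟨K, hK⟩ := iInf_lt_iff.1 h3
  have hK' : Smc_M S (E K) x ≤ e := by
    by_contra h
    have h4 : e ^ 2 ≤ Smc_M S (E K) x ^ 2 := pow_le_pow_left' (not_le.1 h).le 2
    exact absurd hK (not_lt.2 h4)
  filter_upwards [eventually_ge_atTop K] with k hk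
  have h5 : ∀ y, w k y ≤ 0 + 1 * E K y := by
    intro y
    rw [zero_add, one_mul]
    have := le_iSup (fun j : ℕ => w (K + j) y) (k - K)
    rwa [show K + (k - K) = k by omega] at this
  have h6 := Smc_av_const S hI k h5 x
  rw [zero_add, one_mul] at h6
  calc Smc_av S I k (w k) x ≤ Smc_av S I k (E K) x := h6
    _ ≤ 5 * Smc_M S (E K) x := Smc_av_le S hI k _ x
    _ ≤ 5 * e := by gcongr
    _ ≤ ε := he1

theorem smc {d : ℕ} {c : ℝ} {N0 : ℕ} {p : ℕ → ℝ} (hp : Times d c N0 p) {X : Type*} [MeasurableSpace X]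
    {μ : Measure X} [IsFiniteMeasure μ] {φ : ℝ → X → X} (hφ : IsFlow μ φ) {S : Equiv.Perm X} (hS : Comm μ φ S)
    {f : X → ℂ} {B L : ℝ} (hf : Nice φ B L f) (hL : 0 ≤ L)
    {fs : X → ℂ} (hfs : Measurable fs) (hfsb : ∀ x, ‖fs x‖ ≤ B)
    (hlim : ∀ᵐ x ∂μ, Tendsto (fun k : ℕ => Kop φ (((2 ^ k : ℕ) : ℝ) ^ d) f x) atTop (𝓝 (fs x)))
    {I : ℕ → Finset ℕ} (hI : ∀ k, ∀ n ∈ I k, 2 ^ k < n ∧ n ≤ 2 * 2 ^ k) :
    ∀ᵐ x ∂μ, ∀ β ∈ Set.Icc (1 : ℝ) 2, Tendsto (fun k : ℕ => (((2 ^ k : ℕ) : ℝ))⁻¹ * ∑ n ∈ I k,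
        ‖Kop φ (((2 ^ k : ℕ) : ℝ) ^ d) f (φ (β * p n) ((S ^ n) x)) - fs ((S ^ n) x)‖) atTop (𝓝 0) := by
  have hU : ∀ k : ℕ, (0 : ℝ) < ((2 ^ k : ℕ) : ℝ) ^ d := fun k => by positivity
  obtain ⟨D, hD⟩ : ∃ D : ℕ, c⁻¹ ≤ 2 ^ D := by
    obtain ⟨D, hD⟩ := pow_unbounded_of_one_lt c⁻¹ (one_lt_two)
    exact ⟨D, hD.le⟩
  obtain ⟨G, hG1, hG2⟩ := Smc_A hp.hd D hφ hS hf hI
  set w : ℕ → X → ENNReal := fun k x => ‖Kop φ (((2 ^ k : ℕ) : ℝ) ^ d) f x - fs x‖ₑ with hwdef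
  have hw : ∀ k, Measurable (w k) := fun k => ((Kop_nice hφ hf (hU k)).meas.sub hfs).enorm
  have hwb : ∀ k x, w k x ≤ ENNReal.ofReal (B + B) := by
    intro k x
    show ‖Kop φ (((2 ^ k : ℕ) : ℝ) ^ d) f x - fs x‖ₑ ≤ _
    rw [← ofReal_norm]
    refine ENNReal.ofReal_le_ofReal ?_
    exact (norm_sub_le _ _).trans (add_le_add ((Kop_nice hφ hf (hU k)).bd x) (hfsb x))
  have hw0 : ∀ᵐ x ∂μ, Tendsto (fun k : ℕ => w k x) atTop (𝓝 0) := by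
    filter_upwards [hlim] with x hx
    have h1 : Tendsto (fun k : ℕ => Kop φ (((2 ^ k : ℕ) : ℝ) ^ d) f x - fs x) atTop (𝓝 0) := by
      have := hx.sub_const (fs x)
      rwa [sub_self] at this
    exact tendsto_zero_iff_enorm_tendsto_zero.1 h1
  have hB := Smc_B hφ hS hw ENNReal.ofReal_ne_top hwb hw0 hI
  filter_upwards [hG2, hB] with x hx1 hx2 β hβ
  rw [tendsto_zero_iff_enorm_tendsto_zero]
  have h0 : Tendsto (fun k => Smc_av S I k (G k) x + Smc_av S I k (w k) x) atTop (𝓝 0) := by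
    have := hx1.add hx2
    rwa [add_zero] at this
  refine tendsto_of_tendsto_of_tendsto_of_le_of_le' tendsto_const_nhds h0
    (Eventually.of_forall fun _ => zero_le) ?_
  have hev : ∀ᶠ k : ℕ in atTop, N0 ≤ 2 ^ k := by
    filter_upwards [eventually_ge_atTop N0] with k hk
    exact hk.trans Nat.lt_two_pow_self.le
  filter_upwards [hev] with k hk
  have h3 : ‖(((2 ^ k : ℕ) : ℝ))⁻¹‖ₑ = ((2 ^ k : ℕ) : ENNReal)⁻¹ := by
    rw [enorm_inv (Nat.cast_ne_zero.2 (by positivity))]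
    congr 1
    rw [← ofReal_norm, Real.norm_natCast, ENNReal.ofReal_natCast]
  rw [enorm_mul, h3]
  unfold Smc_av
  rw [← mul_add, ← Finset.sum_add_distrib]
  gcongr
  refine (enorm_sum_le _ _).trans (Finset.sum_le_sum fun n hn => ?_)
  rw [enorm_norm]
  have hn' := hI k n hn
  have hl := hp.lower (2 ^ k) n hk hn'.1 hn'.2
  have hu := hp.upper (2 ^ k) n hk hn'.1 hn'.2
  have hp0 : 0 ≤ p n := le_trans (mul_nonneg hp.c_pos.le (hU k).le) hl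
  have ht0 : 0 ≤ β * p n := mul_nonneg (by linarith [hβ.1]) hp0
  have ht1 : β * p n ≤ 2 ^ (D + 1) * ((2 ^ k : ℕ) : ℝ) ^ d := by
    calc β * p n ≤ 2 * (c⁻¹ * ((2 ^ k : ℕ) : ℝ) ^ d) := by
          have := hβ.2
          gcongr
      _ ≤ 2 * (2 ^ D * ((2 ^ k : ℕ) : ℝ) ^ d) := by gcongr
      _ = _ := by
        rw [pow_succ]
        ring
  have h4 := hG1 k ((S ^ n) x) (β * p n) ht0 ht1
  have h5 : Kop φ (((2 ^ k : ℕ) : ℝ) ^ d) f (φ (β * p n) ((S ^ n) x)) - fs ((S ^ n) x) =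
      (Kop φ (((2 ^ k : ℕ) : ℝ) ^ d) f (φ (β * p n) ((S ^ n) x)) -
        Kop φ (((2 ^ k : ℕ) : ℝ) ^ d) f ((S ^ n) x)) +
      (Kop φ (((2 ^ k : ℕ) : ℝ) ^ d) f ((S ^ n) x) - fs ((S ^ n) x)) := by ring
  rw [h5]
  refine (enorm_add_le _ _).trans ?_
  exact add_le_add h4 le_rfl

end Pool.Agent.GTC
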