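import Mathlib
import Pool.Agent.GTC.TDefs
import Pool.Agent.GTC.PolyR
import Pool.Agent.GTC.Smc
import Pool.Agent.GTC.Dy
import Pool.Agent.GT.Ces
import Pool.Agent.GT.OpsB

/-!
# GTC/OneC: one flow, one commuting transformation, polynomial times, arbitrary weights

Follow `GT/One.lean` (helper83) closely.

`onesC`: for all `r`, `i < 2^r` (countably many) `Dy.dy` and `Smc.smc` with `I k = GT.sb r i k` (its elements satisfy `2^k < n ≤ 2·2^k`) give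
`2^(-k) ∑_{n ∈ sb r i k} a_n (f(φ(β p(n)) S^n x) - fs(S^n x)) → 0`; `GT.ces` for `g n = a_n(x) (f(φ(β p(n)) S^n x) - fs(S^n x))`, `‖g‖ ≤ 2B`.

`oneC`: almost every `β ≠ 0` is `s w` with `s = ±2^i`, `i ∈ ℤ`, `w ∈ [1, 2]` (countably many `s`; `w ↦ s w` maps null sets to null sets).  Let `ε = ±1` be such that `P⁺ = ε P` has
positive leading coefficient: for `n > 0`, `φ(β P(n)) = φ^(ε s)(w P⁺(n))`, where `φ^s(t) = φ(s t)`.  For `n < 0`, `n = -m`: `P(-m) = ε' P⁻(m)` with `P⁻ = ε' P.comp(-X)` of the same degree with positive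
leading coefficient, `φ(β P(n)) = φ^(ε' s)(w P⁻(m))`, `S^n = (S.symm)^m` (`Comm.symm`).  `polyR` gives `Times` for `P⁺`, `P⁻`.  The hypothesis `hlim` for the scaled flow: as in `GT/One.lean`
(`One_lim`, it is private there: copy it): `Kop φ^s ((2^k)^d) f x = Kop φ (|s| (2^k)^d) f x = Kop φ (2^(dk+i)) f x`.  The exceptional set of `(x, β)` is measurable.
-/

namespace Pool.Agent.GTC

open MeasureTheory Filter Topology Pool.Agent.GT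

private theorem OneC_mem {r i k n : ℕ} (h : n ∈ sb r i k) : 2 ^ k < n ∧ n ≤ 2 * 2 ^ k := by
  unfold sb at h
  rw [Finset.mem_filter, Finset.mem_Ioc] at h
  exact ⟨by have := Nat.zero_le (i * 2 ^ (k - r)); omega, h.2⟩

private theorem OneC_sb {r i : ℕ} {c : ℕ → ℂ} (hc : ∀ n, ‖c n‖ ≤ 1) {u v : ℕ → ℂ} {K : ℕ → ℕ → ℂ}
    (h1 : Tendsto (fun k : ℕ => ((2 ^ k : ℕ) : ℂ)⁻¹ * ∑ n ∈ sb r i k, c n * (u n - K k n)) atTop (𝓝 0))
    (h2 : Tendsto (fun k : ℕ => (((2 ^ k : ℕ) : ℝ))⁻¹ * ∑ n ∈ sb r i k, ‖K k n - v n‖) atTop (𝓝 0)) :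
    Tendsto (fun k : ℕ => ((2 ^ k : ℕ) : ℂ)⁻¹ * ∑ n ∈ sb r i k, c n * (u n - v n)) atTop (𝓝 0) := by
  have h3 : Tendsto (fun k : ℕ => ((2 ^ k : ℕ) : ℂ)⁻¹ * ∑ n ∈ sb r i k, c n * (K k n - v n)) atTop (𝓝 0) := by
    refine squeeze_zero_norm (fun k => ?_) h2
    rw [norm_mul, norm_inv, Complex.norm_natCast]
    refine mul_le_mul_of_nonneg_left ?_ (by positivity)
    refine norm_sum_le_of_le (sb r i k) (fun n _ => ?_)
    rw [norm_mul]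
    exact mul_le_of_le_one_left (norm_nonneg _) (hc n)
  have h6 := h1.add h3
  rw [add_zero] at h6
  refine h6.congr fun k => ?_
  rw [← mul_add, ← Finset.sum_add_distrib]
  congr 1
  apply Finset.sum_congr rfl
  intro n _
  ring

theorem onesC {d : ℕ} {c : ℝ} {N0 : ℕ} {p : ℕ → ℝ} (hp : Times d c N0 p) {X : Type*} [MeasurableSpace X]
    {μ : Measure X} [IsFiniteMeasure μ] {φ : ℝ → X → X} (hφ : IsFlow μ φ) {S : Equiv.Perm X} (hS : Comm μ φ S)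
    {f : X → ℂ} {B L : ℝ} (hf : Nice φ B L f) (hL : 0 ≤ L)
    {a : ℕ → X → ℂ} (ha : ∀ n, Measurable (a n)) (ha1 : ∀ n x, ‖a n x‖ ≤ 1)
    {fs : X → ℂ} (hfs : Measurable fs) (hfsb : ∀ x, ‖fs x‖ ≤ B)
    (hlim : ∀ᵐ x ∂μ, Tendsto (fun k : ℕ => Kop φ (((2 ^ k : ℕ) : ℝ) ^ d) f x) atTop (𝓝 (fs x))) :
    ∀ᵐ q ∂(μ.prod (volume.restrict (Set.Icc (1 : ℝ) 2))),
      Tendsto (fun N : ℕ => ((2 * N + 1 : ℕ) : ℂ)⁻¹ * ∑ n ∈ Finset.Icc 1 N, a n q.1 *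
        (f (φ (q.2 * p n) ((S ^ n) q.1)) - fs ((S ^ n) q.1))) atTop (𝓝 0) := by
  have h1 : ∀ r i : ℕ, ∀ᵐ q ∂(μ.prod (volume.restrict (Set.Icc (1 : ℝ) 2))),
      Tendsto (fun k : ℕ => ((2 ^ k : ℕ) : ℂ)⁻¹ * ∑ n ∈ sb r i k, a n q.1 *
        (f (φ (q.2 * p n) ((S ^ n) q.1)) -
          Kop φ (((2 ^ k : ℕ) : ℝ) ^ d) f (φ (q.2 * p n) ((S ^ n) q.1)))) atTop (𝓝 0) :=
    fun r i => dy hp hφ hS hf hL ha ha1 (fun k n hn => OneC_mem hn)
  have h2 : ∀ r i : ℕ, ∀ᵐ x ∂μ, ∀ β ∈ Set.Icc (1 : ℝ) 2, Tendsto (fun k : ℕ => (((2 ^ k : ℕ) : ℝ))⁻¹ *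
      ∑ n ∈ sb r i k, ‖Kop φ (((2 ^ k : ℕ) : ℝ) ^ d) f (φ (β * p n) ((S ^ n) x)) - fs ((S ^ n) x)‖)
      atTop (𝓝 0) :=
    fun r i => smc hp hφ hS hf hL hfs hfsb hlim (fun k n hn => OneC_mem hn)
  have h3 := ae_all_iff.2 fun r => ae_all_iff.2 (h1 r)
  have h4 : ∀ᵐ q ∂(μ.prod (volume.restrict (Set.Icc (1 : ℝ) 2))), ∀ r i : ℕ, ∀ β ∈ Set.Icc (1 : ℝ) 2,
      Tendsto (fun k : ℕ => (((2 ^ k : ℕ) : ℝ))⁻¹ * ∑ n ∈ sb r i k,
        ‖Kop φ (((2 ^ k : ℕ) : ℝ) ^ d) f (φ (β * p n) ((S ^ n) q.1)) - fs ((S ^ n) q.1)‖) atTop (𝓝 0) :=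
    Measure.quasiMeasurePreserving_fst.ae (ae_all_iff.2 fun r => ae_all_iff.2 (h2 r))
  have h5 : ∀ᵐ q ∂(μ.prod (volume.restrict (Set.Icc (1 : ℝ) 2))), q.2 ∈ Set.Icc (1 : ℝ) 2 :=
    Measure.quasiMeasurePreserving_snd.ae (ae_restrict_mem measurableSet_Icc)
  filter_upwards [h3, h4, h5] with q hq1 hq2 hq3
  refine ces (C := 2 * B)
    (g := fun n => a n q.1 * (f (φ (q.2 * p n) ((S ^ n) q.1)) - fs ((S ^ n) q.1))) ?_ ?_
  · intro n
    rw [norm_mul]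
    have h4 := norm_sub_le (f (φ (q.2 * p n) ((S ^ n) q.1))) (fs ((S ^ n) q.1))
    have h5 := hf.bd (φ (q.2 * p n) ((S ^ n) q.1))
    have h6 := hfsb ((S ^ n) q.1)
    refine (mul_le_of_le_one_left (norm_nonneg _) (ha1 n q.1)).trans ?_
    linarith
  · intro r i _
    exact OneC_sb (K := fun k n => Kop φ (((2 ^ k : ℕ) : ℝ) ^ d) f (φ (q.2 * p n) ((S ^ n) q.1)))
      (fun n => ha1 n q.1) (hq1 r i) (hq2 r i q.2 hq3)

/-- the limit along the scaled flow -/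
private theorem OneC_lim {d : ℕ} (hd : 1 ≤ d) {X : Type*} [MeasurableSpace X] {μ : Measure X} [IsFiniteMeasure μ]
    {φ : ℝ → X → X} (hφ : IsFlow μ φ) {f : X → ℂ} {B L : ℝ} (hf : Nice φ B L f) {s : ℝ} {i : ℤ}
    (hs : |s| = 2 ^ i) {x : X} {y : ℂ} (hlim : Tendsto (fun k : ℕ => Kop φ (2 ^ k) f x) atTop (𝓝 y)) :
    Tendsto (fun k : ℕ => Kop (fun t => φ (s * t)) (((2 ^ k : ℕ) : ℝ) ^ d) f x) atTop (𝓝 y) := by
  have hs0 : s ≠ 0 := by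
    intro h
    rw [h, abs_zero] at hs
    have : (0 : ℝ) < 2 ^ i := by positivity
    linarith
  have hj : Tendsto (fun k : ℕ => (d * k + i).toNat) atTop atTop := by
    refine tendsto_atTop_mono' atTop (f₁ := fun k : ℕ => k - i.natAbs) ?_ ?_
    · refine Eventually.of_forall fun k => ?_
      have h1 : (k : ℤ) ≤ d * k := by
        have : (1 : ℤ) ≤ d := by exact_mod_cast hd
        nlinarith [Int.natCast_nonneg k]
      show k - i.natAbs ≤ ((d : ℤ) * k + i).toNat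
      generalize (d : ℤ) * k = m at *
      omega
    · exact tendsto_sub_atTop_nat _
  refine (hlim.comp hj).congr' ?_
  filter_upwards [eventually_ge_atTop i.natAbs] with k hk
  show Kop φ (2 ^ ((d : ℤ) * k + i).toNat) f x = Kop (fun t => φ (s * t)) (((2 ^ k : ℕ) : ℝ) ^ d) f x
  rw [Kop_scale hs0 hφ hf (by positivity), hs]
  congr 1
  have h1 : (k : ℤ) ≤ d * k := by
    have : (1 : ℤ) ≤ d := by exact_mod_cast hd
    nlinarith [Int.natCast_nonneg k]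
  have h2 : (((d : ℤ) * k + i).toNat : ℤ) = d * k + i := by
    rw [Int.toNat_of_nonneg]
    generalize (d : ℤ) * k = m at *
    omega
  rw [← zpow_natCast, h2, zpow_add₀ (by norm_num), mul_comm]
  congr 1
  rw [Nat.cast_pow, Nat.cast_ofNat, ← pow_mul, ← zpow_natCast]
  congr 1
  push_cast
  ring

private theorem OneC_split {E : Type*} [AddCommGroup E] (F : ℤ → E) (N : ℕ) :
    ∑ n ∈ Finset.Icc (-(N : ℤ)) N, F n =
      ∑ n ∈ Finset.Icc 1 N, F (n : ℤ) + ∑ n ∈ Finset.Icc 1 N, F (-(n : ℤ)) + F 0 := by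
  induction N with
  | zero => simp
  | succ N ih =>
    have h1 : Finset.Icc (-((N + 1 : ℕ) : ℤ)) ((N + 1 : ℕ) : ℤ) =
        insert (-((N + 1 : ℕ) : ℤ)) (insert (((N + 1 : ℕ) : ℤ)) (Finset.Icc (-(N : ℤ)) N)) := by
      ext z
      simp only [Finset.mem_Icc, Finset.mem_insert]
      push_cast
      omega
    rw [h1, Finset.sum_insert, Finset.sum_insert, ih, Finset.sum_Icc_succ_top (by omega), Finset.sum_Icc_succ_top (by omega)]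
    · abel
    · simp only [Finset.mem_Icc, not_and, not_le]
      push_cast
      omega
    · simp only [Finset.mem_insert, Finset.mem_Icc]
      push_cast
      omega

/-- the one-sided statement for `β = s w` and a polynomial with positive leading coefficient -/
private theorem OneC_pos {Q : Polynomial ℝ} (hQ : 1 ≤ Q.natDegree) (hl : 0 < Q.leadingCoeff)
    {X : Type*} [MeasurableSpace X] {μ : Measure X} [IsFiniteMeasure μ] {φ : ℝ → X → X} (hφ : IsFlow μ φ)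
    {S : Equiv.Perm X} (hS : Comm μ φ S) {f : X → ℂ} {B L : ℝ} (hf : Nice φ B L f) (hL : 0 ≤ L)
    {a : ℕ → X → ℂ} (ha : ∀ n, Measurable (a n)) (ha1 : ∀ n x, ‖a n x‖ ≤ 1)
    {fs : X → ℂ} (hfs : Measurable fs) (hfsb : ∀ x, ‖fs x‖ ≤ B)
    (hlim : ∀ᵐ x ∂μ, Tendsto (fun k : ℕ => Kop φ (2 ^ k) f x) atTop (𝓝 (fs x))) {s : ℝ} {i : ℤ}
    (hs : |s| = 2 ^ i) :
    ∀ᵐ q ∂(μ.prod (volume.restrict (Set.Icc (1 : ℝ) 2))),
      Tendsto (fun N : ℕ => ((2 * N + 1 : ℕ) : ℂ)⁻¹ * ∑ n ∈ Finset.Icc 1 N, a n q.1 *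
        (f (φ (s * q.2 * Q.eval (n : ℝ)) ((S ^ n) q.1)) - fs ((S ^ n) q.1))) atTop (𝓝 0) := by
  obtain ⟨c, N0, hT⟩ := polyR Q hQ hl
  have h1 := onesC hT (hφ.scale s) (hS.scale s) (hf.scale s) (mul_nonneg hL (abs_nonneg s))
    ha ha1 hfs hfsb (by
      filter_upwards [hlim] with x hx
      exact OneC_lim hQ hφ hf hs hx)
  filter_upwards [h1] with q hq
  refine hq.congr fun N => ?_
  congr 1
  refine Finset.sum_congr rfl fun n _ => ?_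
  show a n q.1 * (f (φ (s * (q.2 * Q.eval (n : ℝ))) ((S ^ n) q.1)) - fs ((S ^ n) q.1)) = _
  rw [← mul_assoc s]

/-- the one-sided statement for `β = s w` -/
private theorem OneC_half {Q : Polynomial ℝ} (hQ : 1 ≤ Q.natDegree)
    {X : Type*} [MeasurableSpace X] {μ : Measure X} [IsFiniteMeasure μ] {φ : ℝ → X → X} (hφ : IsFlow μ φ)
    {S : Equiv.Perm X} (hS : Comm μ φ S) {f : X → ℂ} {B L : ℝ} (hf : Nice φ B L f) (hL : 0 ≤ L)
    {a : ℕ → X → ℂ} (ha : ∀ n, Measurable (a n)) (ha1 : ∀ n x, ‖a n x‖ ≤ 1)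
    {fs : X → ℂ} (hfs : Measurable fs) (hfsb : ∀ x, ‖fs x‖ ≤ B)
    (hlim : ∀ᵐ x ∂μ, Tendsto (fun k : ℕ => Kop φ (2 ^ k) f x) atTop (𝓝 (fs x))) {s : ℝ} {i : ℤ}
    (hs : |s| = 2 ^ i) :
    ∀ᵐ q ∂(μ.prod (volume.restrict (Set.Icc (1 : ℝ) 2))),
      Tendsto (fun N : ℕ => ((2 * N + 1 : ℕ) : ℂ)⁻¹ * ∑ n ∈ Finset.Icc 1 N, a n q.1 *
        (f (φ (s * q.2 * Q.eval (n : ℝ)) ((S ^ n) q.1)) - fs ((S ^ n) q.1))) atTop (𝓝 0) := by
  have hQ0 : Q.leadingCoeff ≠ 0 := by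
    rw [Ne, Polynomial.leadingCoeff_eq_zero]
    rintro rfl
    rw [Polynomial.natDegree_zero] at hQ
    omega
  rcases lt_or_gt_of_ne hQ0 with hl | hl
  · have h1 := OneC_pos (Q := -Q) (by rwa [Polynomial.natDegree_neg])
      (by rw [Polynomial.leadingCoeff_neg]; linarith) hφ hS hf hL ha ha1 hfs hfsb hlim (s := -s) (i := i)
      (by rwa [abs_neg])
    filter_upwards [h1] with q hq
    refine hq.congr fun N => ?_
    congr 1
    refine Finset.sum_congr rfl fun n _ => ?_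
    have h2 : -s * q.2 * (-Q).eval (n : ℝ) = s * q.2 * Q.eval (n : ℝ) := by
      rw [Polynomial.eval_neg]
      ring
    rw [h2]
  · exact OneC_pos hQ hl hφ hS hf hL ha ha1 hfs hfsb hlim hs

/-- the two-sided statement for `β = s w` -/
private theorem OneC_s {P : Polynomial ℝ} (hP : 1 ≤ P.natDegree) {X : Type*} [MeasurableSpace X]
    {μ : Measure X} [IsFiniteMeasure μ] {φ : ℝ → X → X} (hφ : IsFlow μ φ) {S : Equiv.Perm X} (hS : Comm μ φ S)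
    {f : X → ℂ} {B L : ℝ} (hf : Nice φ B L f) (hL : 0 ≤ L)
    {a : ℤ → X → ℂ} (ha : ∀ n, Measurable (a n)) (ha1 : ∀ n x, ‖a n x‖ ≤ 1)
    {fs : X → ℂ} (hfs : Measurable fs) (hfsb : ∀ x, ‖fs x‖ ≤ B)
    (hlim : ∀ᵐ x ∂μ, Tendsto (fun k : ℕ => Kop φ (2 ^ k) f x) atTop (𝓝 (fs x))) {s : ℝ} {i : ℤ}
    (hs : |s| = 2 ^ i) :
    ∀ᵐ q ∂(μ.prod (volume.restrict (Set.Icc (1 : ℝ) 2))),
      Tendsto (fun N : ℕ => ((2 * N + 1 : ℕ) : ℂ)⁻¹ * ∑ n ∈ Finset.Icc (-(N : ℤ)) N, a n q.1 *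
        (f (φ (s * q.2 * P.eval (n : ℝ)) ((S ^ n) q.1)) - fs ((S ^ n) q.1))) atTop (𝓝 0) := by
  have hd : (P.comp (-Polynomial.X)).natDegree = P.natDegree := by
    rw [Polynomial.natDegree_comp, Polynomial.natDegree_neg, Polynomial.natDegree_X, mul_one]
  have h1 := OneC_half hP hφ hS hf hL (a := fun n => a n) (fun n => ha n) (fun n x => ha1 n x) hfs hfsb
    hlim hs
  have h2 := OneC_half (Q := P.comp (-Polynomial.X)) (by rwa [hd]) hφ hS.symm hf hL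
    (a := fun n => a (-(n : ℤ))) (fun n => ha _) (fun n x => ha1 _ x) hfs hfsb hlim hs
  filter_upwards [h1, h2] with q hp hq
  have h0 : Tendsto (fun N : ℕ => ((2 * N + 1 : ℕ) : ℂ)⁻¹ * (a 0 q.1 *
        (f (φ (s * q.2 * P.eval ((0 : ℤ) : ℝ)) ((S ^ (0 : ℤ)) q.1)) - fs ((S ^ (0 : ℤ)) q.1)))) atTop (𝓝 0) := by
    have h3 : Tendsto (fun N : ℕ => ((2 * N + 1 : ℕ) : ℂ)⁻¹) atTop (𝓝 0) := by
      have h4 : Tendsto (fun N : ℕ => 2 * N + 1) atTop atTop :=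
        tendsto_atTop_mono (fun N => (by omega : N ≤ 2 * N + 1)) (tendsto_id (α := ℕ))
      exact (tendsto_inv_atTop_nhds_zero_nat (𝕜 := ℂ)).comp h4
    simpa using h3.mul_const (a 0 q.1 *
        (f (φ (s * q.2 * P.eval ((0 : ℤ) : ℝ)) ((S ^ (0 : ℤ)) q.1)) - fs ((S ^ (0 : ℤ)) q.1)))
  have h5 := (hp.add hq).add h0
  rw [add_zero, add_zero] at h5
  refine h5.congr fun N => ?_
  rw [OneC_split (fun n : ℤ => a n q.1 * (f (φ (s * q.2 * P.eval (n : ℝ)) ((S ^ n) q.1)) -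
    fs ((S ^ n) q.1))) N, mul_add, mul_add]
  congr 2
  congr 1
  apply Finset.sum_congr rfl
  intro n _
  have h6 : (P.comp (-Polynomial.X)).eval (n : ℝ) = P.eval ((-(n : ℤ) : ℤ) : ℝ) := by
    rw [Polynomial.eval_comp, Polynomial.eval_neg, Polynomial.eval_X]
    push_cast
    rfl
  have h7 : S.symm ^ n = S ^ (-(n : ℤ)) := by
    rw [zpow_neg, zpow_natCast, ← inv_pow]
    rfl
  rw [h6, h7]

private theorem OneC_meas {P : Polynomial ℝ} {X : Type*} [MeasurableSpace X] {μ : Measure X}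
    {φ : ℝ → X → X} (hφ : IsFlow μ φ) {S : Equiv.Perm X} (hS : Comm μ φ S) {f : X → ℂ} {B L : ℝ}
    (hf : Nice φ B L f) {a : ℤ → X → ℂ} (ha : ∀ n, Measurable (a n)) {fs : X → ℂ} (hfs : Measurable fs) :
    MeasurableSet {q : X × ℝ | Tendsto (fun N : ℕ => ((2 * N + 1 : ℕ) : ℂ)⁻¹ * ∑ n ∈ Finset.Icc (-(N : ℤ)) N,
      a n q.1 * (f (φ (q.2 * P.eval (n : ℝ)) ((S ^ n) q.1)) - fs ((S ^ n) q.1))) atTop (𝓝 0)} := by
  refine measurableSet_tendsto (𝓝 (0 : ℂ)) fun N => ?_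
  refine Measurable.const_mul ?_ _
  refine Finset.measurable_sum _ fun n _ => ?_
  have hSn : Measurable fun q : X × ℝ => (S ^ n) q.1 := (hS.zpow n).mp.measurable.comp measurable_fst
  refine ((ha n).comp measurable_fst).mul ((hf.meas.comp ?_).sub (hfs.comp hSn))
  exact hφ.meas.comp ((measurable_snd.mul_const _).prodMk hSn)

/-- null sets under scaling -/
private theorem OneC_exp {P : ℝ → Prop} (h : ∀ (i : ℤ) (e : ℝ), e = 1 ∨ e = -1 →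
    ∀ᵐ w ∂(volume.restrict (Set.Icc (1 : ℝ) 2)), P (e * 2 ^ i * w)) :
    ∀ᵐ β ∂(volume : Measure ℝ), P β := by
  have h1 : ∀ (i : ℤ) (e : ℝ), e = 1 ∨ e = -1 → volume ((fun w => e * 2 ^ i * w) ''
      {w | w ∈ Set.Icc (1 : ℝ) 2 ∧ ¬ P (e * 2 ^ i * w)}) = 0 := by
    intro i e he
    refine addHaar_image_eq_zero_of_differentiableOn_of_addHaar_eq_zero volume ?_ ?_
    · exact (differentiable_id.const_mul _).differentiableOn
    · have h2 := h i e he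
      rw [ae_restrict_iff' measurableSet_Icc, ae_iff] at h2
      refine measure_mono_null ?_ h2
      intro w hw
      exact fun hc => hw.2 (hc hw.1)
  have h2 : volume (⋃ i : ℤ, (((fun w => (1 : ℝ) * 2 ^ i * w) ''
      {w | w ∈ Set.Icc (1 : ℝ) 2 ∧ ¬ P (1 * 2 ^ i * w)}) ∪ ((fun w => (-1 : ℝ) * 2 ^ i * w) ''
      {w | w ∈ Set.Icc (1 : ℝ) 2 ∧ ¬ P (-1 * 2 ^ i * w)}))) = 0 := by
    refine measure_iUnion_null fun i => measure_union_null (h1 i 1 (Or.inl rfl)) (h1 i (-1) (Or.inr rfl))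
  rw [ae_iff]
  refine measure_mono_null (t := {0} ∪ _) ?_ (measure_union_null Real.volume_singleton h2)
  intro β hβ
  rcases eq_or_ne β 0 with h0 | h0
  · exact Or.inl h0
  · right
    obtain ⟨i, hi1, hi2⟩ := exists_mem_Ico_zpow (abs_pos.2 h0) (by norm_num : (1 : ℝ) < 2)
    have hp : (0 : ℝ) < 2 ^ i := by positivity
    have hw : |β| = 2 ^ i * (|β| / 2 ^ i) := by
      field_simp
    have hw1 : |β| / 2 ^ i ∈ Set.Icc (1 : ℝ) 2 := by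
      constructor
      · rw [le_div_iff₀ hp, one_mul]
        exact hi1
      · rw [div_le_iff₀ hp]
        rw [zpow_add_one₀ (by norm_num)] at hi2
        linarith
    rw [Set.mem_iUnion]
    refine ⟨i, ?_⟩
    rcases lt_or_gt_of_ne h0 with hn | hn
    · right
      have h3 : -1 * 2 ^ i * (|β| / 2 ^ i) = β := by
        rw [mul_assoc, ← hw, abs_of_neg hn]
        ring
      exact ⟨|β| / 2 ^ i, ⟨hw1, by rw [h3]; exact hβ⟩, h3⟩
    · left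
      have h3 : 1 * 2 ^ i * (|β| / 2 ^ i) = β := by
        rw [mul_assoc, ← hw, abs_of_pos hn]
        ring
      exact ⟨|β| / 2 ^ i, ⟨hw1, by rw [h3]; exact hβ⟩, h3⟩

theorem oneC {P : Polynomial ℝ} (hP : 1 ≤ P.natDegree) {X : Type*} [MeasurableSpace X]
    {μ : Measure X} [IsFiniteMeasure μ] {φ : ℝ → X → X} (hφ : IsFlow μ φ) {S : Equiv.Perm X} (hS : Comm μ φ S)
    {f : X → ℂ} {B L : ℝ} (hf : Nice φ B L f) (hL : 0 ≤ L)
    {a : ℤ → X → ℂ} (ha : ∀ n, Measurable (a n)) (ha1 : ∀ n x, ‖a n x‖ ≤ 1)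
    {fs : X → ℂ} (hfs : Measurable fs) (hfsb : ∀ x, ‖fs x‖ ≤ B)
    (hlim : ∀ᵐ x ∂μ, Tendsto (fun k : ℕ => Kop φ (2 ^ k) f x) atTop (𝓝 (fs x))) :
    ∀ᵐ q ∂(μ.prod (volume : Measure ℝ)),
      Tendsto (fun N : ℕ => ((2 * N + 1 : ℕ) : ℂ)⁻¹ * ∑ n ∈ Finset.Icc (-(N : ℤ)) N, a n q.1 *
        (f (φ (q.2 * P.eval (n : ℝ)) ((S ^ n) q.1)) - fs ((S ^ n) q.1))) atTop (𝓝 0) := by
  rw [Measure.ae_prod_iff_ae_ae (OneC_meas hφ hS hf ha hfs)]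
  have h1 : ∀ i : ℤ, ∀ᵐ x ∂μ, ∀ᵐ w ∂(volume.restrict (Set.Icc (1 : ℝ) 2)),
      Tendsto (fun N : ℕ => ((2 * N + 1 : ℕ) : ℂ)⁻¹ * ∑ n ∈ Finset.Icc (-(N : ℤ)) N, a n x *
        (f (φ (1 * 2 ^ i * w * P.eval (n : ℝ)) ((S ^ n) x)) - fs ((S ^ n) x))) atTop (𝓝 0) := fun i =>
    Measure.ae_ae_of_ae_prod (OneC_s hP hφ hS hf hL ha ha1 hfs hfsb hlim (s := 1 * 2 ^ i) (i := i)
      (by rw [one_mul, abs_of_pos (by positivity)]))
  have h2 : ∀ i : ℤ, ∀ᵐ x ∂μ, ∀ᵐ w ∂(volume.restrict (Set.Icc (1 : ℝ) 2)),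
      Tendsto (fun N : ℕ => ((2 * N + 1 : ℕ) : ℂ)⁻¹ * ∑ n ∈ Finset.Icc (-(N : ℤ)) N, a n x *
        (f (φ (-1 * 2 ^ i * w * P.eval (n : ℝ)) ((S ^ n) x)) - fs ((S ^ n) x))) atTop (𝓝 0) := fun i =>
    Measure.ae_ae_of_ae_prod (OneC_s hP hφ hS hf hL ha ha1 hfs hfsb hlim (s := -1 * 2 ^ i) (i := i)
      (by rw [neg_one_mul, abs_neg, abs_of_pos (by positivity)]))
  filter_upwards [ae_all_iff.2 h1, ae_all_iff.2 h2] with x hx1 hx2
  refine OneC_exp (P := fun β => Tendsto (fun N : ℕ => ((2 * N + 1 : ℕ) : ℂ)⁻¹ *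
    ∑ n ∈ Finset.Icc (-(N : ℤ)) N, a n x * (f (φ (β * P.eval (n : ℝ)) ((S ^ n) x)) - fs ((S ^ n) x)))
    atTop (𝓝 0)) ?_
  rintro i e (rfl | rfl)
  · exact hx1 i
  · exact hx2 i

end Pool.Agent.GTC
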