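import Mathlib
import Pool.Agent.GTC.TDefs
import Pool.Agent.GTC.OneC

/-!
# GTC/TupC: several flows with commuting transformations, nice functions

`parC`: as `GT/Par.lean` (helper98), with `OneC.oneC` in place of `One.one`; first divide by `max C 1`.

`tupC`: as `GT/Tup.lean` (helper1), but the weights must be arbitrary in the induction: for every finset `s ⊆ Fin r`, for ALL bounded measurable weights `a`, the averages of
`a_n(x) (∏_{i ∈ s} u_i(n) - ∏_{i ∈ s} v_i(n))` tend to zero for almost every `(β, x)`, `u_i(n) = g_i(φ^i(β_i P_i(n)) S_i^n x)`, `v_i(n) = gs_i(S_i^n x)`.  Step (`j ∉ s`):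
`∏_{insert j s} u - ∏_{insert j s} v = (u_j - v_j) ∏_{i ∈ s} u_i + v_j (∏_s u - ∏_s v)`; the first term is `parC` for `j` with the weights `A n β x = a_n(x) ∏_{i ∈ s} u_i(n)`, which do not depend on `β_j`,
are measurable in `(β, x)` and bounded; the second is the induction hypothesis for the weights `a_n(x) gs_j(S_j^n x)`.  Finally `s = univ`.
-/

namespace Pool.Agent.GTC

open MeasureTheory Filter Topology Pool.Agent.GT

/-- the rearrangement of the variables -/
private theorem TupC_mp {r : ℕ} (j : Fin (r + 1)) {X : Type*} [MeasurableSpace X] (μ : Measure X)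
    [IsFiniteMeasure μ] :
    MeasurePreserving (fun p : (Fin (r + 1) → ℝ) × X => (((fun i => p.1 (j.succAbove i)) : Fin r → ℝ),
      (p.2, p.1 j))) ((volume : Measure (Fin (r + 1) → ℝ)).prod μ)
      ((volume : Measure (Fin r → ℝ)).prod (μ.prod (volume : Measure ℝ))) := by
  have h1 : MeasurePreserving (MeasurableEquiv.piFinSuccAbove (fun _ => ℝ) j)
      (volume : Measure (Fin (r + 1) → ℝ))
      ((volume : Measure ℝ).prod (volume : Measure (Fin r → ℝ))) :=
    volume_preserving_piFinSuccAbove (fun _ => ℝ) j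
  have h2 : MeasurePreserving (Prod.swap : ℝ × (Fin r → ℝ) → (Fin r → ℝ) × ℝ)
      ((volume : Measure ℝ).prod (volume : Measure (Fin r → ℝ)))
      ((volume : Measure (Fin r → ℝ)).prod (volume : Measure ℝ)) := Measure.measurePreserving_swap
  have h3 := (h2.comp h1).prod (MeasurePreserving.id μ)
  have h4 := measurePreserving_prodAssoc (volume : Measure (Fin r → ℝ)) (volume : Measure ℝ) μ
  have h5 : MeasurePreserving (Prod.swap : ℝ × X → X × ℝ) ((volume : Measure ℝ).prod μ)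
      (μ.prod (volume : Measure ℝ)) := Measure.measurePreserving_swap
  have h6 := (MeasurePreserving.id (volume : Measure (Fin r → ℝ))).prod h5
  exact h6.comp (h4.comp h3)

private theorem TupC_one {r : ℕ} (j : Fin (r + 1)) {P : Polynomial ℝ} (hP : 1 ≤ P.natDegree) {X : Type*}
    [MeasurableSpace X] {μ : Measure X} [IsFiniteMeasure μ] {φ : ℝ → X → X} (hφ : IsFlow μ φ)
    {S : Equiv.Perm X} (hS : Comm μ φ S) {f : X → ℂ} {B L : ℝ}
    (hf : Nice φ B L f) (hL : 0 ≤ L)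
    {fs : X → ℂ} (hfs : Measurable fs) (hfsb : ∀ x, ‖fs x‖ ≤ B)
    (hlim : ∀ᵐ x ∂μ, Tendsto (fun k : ℕ => Kop φ (2 ^ k) f x) atTop (𝓝 (fs x)))
    {A : ℤ → (Fin (r + 1) → ℝ) → X → ℂ}
    (hA : ∀ n, Measurable (fun p : (Fin (r + 1) → ℝ) × X => A n p.1 p.2)) {C : ℝ} (hC : 1 ≤ C)
    (hA1 : ∀ n β x, ‖A n β x‖ ≤ C) (hAj : ∀ n β t x, A n (Function.update β j t) x = A n β x)
    (γ : Fin r → ℝ) :
    ∀ᵐ q ∂(μ.prod (volume : Measure ℝ)),
      Tendsto (fun N : ℕ => ((2 * N + 1 : ℕ) : ℂ)⁻¹ * ∑ n ∈ Finset.Icc (-(N : ℤ)) N,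
        A n (j.insertNth (α := fun _ => ℝ) q.2 γ) q.1 *
        (f (φ (q.2 * P.eval (n : ℝ)) ((S ^ n) q.1)) - fs ((S ^ n) q.1))) atTop (𝓝 0) := by
  have hC0 : (C : ℂ) ≠ 0 := by
    rw [Ne, Complex.ofReal_eq_zero]
    linarith
  have h1 := oneC hP hφ hS hf hL (a := fun n x => A n (j.insertNth (α := fun _ => ℝ) 0 γ) x / C)
    (fun n => ((hA n).comp (measurable_const.prodMk measurable_id)).div_const _)
    (fun n x => by
      rw [norm_div, Complex.norm_real, Real.norm_of_nonneg (by linarith), div_le_one (by linarith)]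
      exact hA1 _ _ _) hfs hfsb hlim
  filter_upwards [h1] with q hq
  have h2 := hq.const_mul (C : ℂ)
  rw [mul_zero] at h2
  refine h2.congr fun N => ?_
  rw [mul_left_comm, Finset.mul_sum]
  congr 1
  refine Finset.sum_congr rfl fun n _ => ?_
  have h3 : A n (j.insertNth (α := fun _ => ℝ) q.2 γ) q.1 =
      A n (j.insertNth (α := fun _ => ℝ) 0 γ) q.1 := by
    rw [← hAj n (j.insertNth (α := fun _ => ℝ) 0 γ) q.2 q.1, Fin.update_insertNth]
  rw [h3]
  field_simp

theorem parC {r : ℕ} (j : Fin r) {P : Polynomial ℝ} (hP : 1 ≤ P.natDegree) {X : Type*} [MeasurableSpace X]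
    {μ : Measure X} [IsFiniteMeasure μ] {φ : ℝ → X → X} (hφ : IsFlow μ φ) {S : Equiv.Perm X} (hS : Comm μ φ S)
    {f : X → ℂ} {B L : ℝ} (hf : Nice φ B L f) (hL : 0 ≤ L)
    {fs : X → ℂ} (hfs : Measurable fs) (hfsb : ∀ x, ‖fs x‖ ≤ B)
    (hlim : ∀ᵐ x ∂μ, Tendsto (fun k : ℕ => Kop φ (2 ^ k) f x) atTop (𝓝 (fs x)))
    {A : ℤ → (Fin r → ℝ) → X → ℂ} (hA : ∀ n, Measurable (fun p : (Fin r → ℝ) × X => A n p.1 p.2)) {C : ℝ}
    (hA1 : ∀ n β x, ‖A n β x‖ ≤ C) (hAj : ∀ n β t x, A n (Function.update β j t) x = A n β x) :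
    ∀ᵐ p ∂((volume : Measure (Fin r → ℝ)).prod μ),
      Tendsto (fun N : ℕ => ((2 * N + 1 : ℕ) : ℂ)⁻¹ * ∑ n ∈ Finset.Icc (-(N : ℤ)) N, A n p.1 p.2 *
        (f (φ (p.1 j * P.eval (n : ℝ)) ((S ^ n) p.2)) - fs ((S ^ n) p.2))) atTop (𝓝 0) := by
  obtain _ | r := r
  · exact j.elim0
  have hSm : ∀ n : ℤ, Measurable (S ^ n : Equiv.Perm X) := fun n => (hS.zpow n).meas
  have hmeas : Measurable (fun q : (Fin r → ℝ) × (X × ℝ) =>
      (((j.insertNth (α := fun _ => ℝ) q.2.2 q.1) : Fin (r + 1) → ℝ), q.2.1)) := by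
    have h1 := (MeasurableEquiv.piFinSuccAbove (fun _ => ℝ) j).symm.measurable
    have h2 : Measurable (fun q : (Fin r → ℝ) × (X × ℝ) => (q.2.2, q.1)) := by fun_prop
    exact (h1.comp h2).prodMk (by fun_prop)
  have hW : MeasurableSet {q : (Fin r → ℝ) × (X × ℝ) | Tendsto (fun N : ℕ => ((2 * N + 1 : ℕ) : ℂ)⁻¹ *
      ∑ n ∈ Finset.Icc (-(N : ℤ)) N, A n (j.insertNth (α := fun _ => ℝ) q.2.2 q.1) q.2.1 *
        (f (φ (q.2.2 * P.eval (n : ℝ)) ((S ^ n) q.2.1)) - fs ((S ^ n) q.2.1))) atTop (𝓝 0)} := by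
    refine measurableSet_tendsto _ fun N => ?_
    refine measurable_const.mul (Finset.measurable_fun_sum _ fun n _ => ?_)
    refine ((hA n).comp hmeas).mul (Measurable.sub ?_ ?_)
    · refine hf.meas.comp (hφ.meas.comp (Measurable.prodMk ?_ ?_))
      · fun_prop
      · exact (hSm n).comp (by fun_prop)
    · exact hfs.comp ((hSm n).comp (by fun_prop))
  have h1 : ∀ᵐ q ∂((volume : Measure (Fin r → ℝ)).prod (μ.prod (volume : Measure ℝ))),
      Tendsto (fun N : ℕ => ((2 * N + 1 : ℕ) : ℂ)⁻¹ *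
      ∑ n ∈ Finset.Icc (-(N : ℤ)) N, A n (j.insertNth (α := fun _ => ℝ) q.2.2 q.1) q.2.1 *
        (f (φ (q.2.2 * P.eval (n : ℝ)) ((S ^ n) q.2.1)) - fs ((S ^ n) q.2.1))) atTop (𝓝 0) := by
    rw [Measure.ae_prod_iff_ae_ae hW]
    refine Eventually.of_forall fun γ => ?_
    exact TupC_one j hP hφ hS hf hL hfs hfsb hlim hA (le_max_right C 1)
      (fun n β x => (hA1 n β x).trans (le_max_left C 1)) hAj γ
  have h2 := (TupC_mp j μ).quasiMeasurePreserving.ae h1
  filter_upwards [h2] with p hp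
  have h3 : (j.insertNth (α := fun _ => ℝ) (p.1 j) (fun i => p.1 (j.succAbove i))) = p.1 :=
    Fin.insertNth_self_removeNth j p.1
  rw [h3] at hp
  exact hp

theorem tupC {r : ℕ} {P : Fin r → Polynomial ℝ} (hP : ∀ i, 1 ≤ (P i).natDegree) {X : Type*} [MeasurableSpace X]
    {μ : Measure X} [IsFiniteMeasure μ] {φ : Fin r → ℝ → X → X} (hφ : ∀ i, IsFlow μ (φ i))
    {S : Fin r → Equiv.Perm X} (hS : ∀ i, Comm μ (φ i) (S i)) {g : Fin r → X → ℂ} {B : ℝ}
    (hg : ∀ i, ∃ L, 0 ≤ L ∧ Nice (φ i) B L (g i)) {gs : Fin r → X → ℂ} (hgs : ∀ i, Measurable (gs i))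
    (hgsb : ∀ i x, ‖gs i x‖ ≤ B)
    (hlim : ∀ i, ∀ᵐ x ∂μ, Tendsto (fun k : ℕ => Kop (φ i) (2 ^ k) (g i) x) atTop (𝓝 (gs i x)))
    {a : ℤ → X → ℂ} (ha : ∀ n, Measurable (a n)) {C : ℝ} (ha1 : ∀ n x, ‖a n x‖ ≤ C) :
    ∀ᵐ p ∂((volume : Measure (Fin r → ℝ)).prod μ),
      Tendsto (fun N : ℕ => ((2 * N + 1 : ℕ) : ℂ)⁻¹ * ∑ n ∈ Finset.Icc (-(N : ℤ)) N, a n p.2 *
        (∏ i, g i (φ i (p.1 i * (P i).eval (n : ℝ)) ((S i ^ n) p.2)) - ∏ i, gs i ((S i ^ n) p.2)))
          atTop (𝓝 0) := by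
  have hSm : ∀ (i : Fin r) (n : ℤ), Measurable (S i ^ n : Equiv.Perm X) := fun i n => ((hS i).zpow n).meas
  have key : ∀ (s : Finset (Fin r)) (a : ℤ → X → ℂ), (∀ n, Measurable (a n)) → ∀ C : ℝ,
      (∀ n x, ‖a n x‖ ≤ C) → ∀ᵐ p ∂((volume : Measure (Fin r → ℝ)).prod μ),
      Tendsto (fun N : ℕ => ((2 * N + 1 : ℕ) : ℂ)⁻¹ * ∑ n ∈ Finset.Icc (-(N : ℤ)) N, a n p.2 *
        (∏ i ∈ s, g i (φ i (p.1 i * (P i).eval (n : ℝ)) ((S i ^ n) p.2)) - ∏ i ∈ s, gs i ((S i ^ n) p.2)))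
          atTop (𝓝 0) := by
    intro s
    induction s using Finset.induction_on with
    | empty =>
      intro a _ C _
      refine Eventually.of_forall fun p => ?_
      simp
    | insert j s hj ih =>
      intro a ha C ha1
      obtain ⟨L, hL, hgj⟩ := hg j
      have hm : ∀ n : ℤ, Measurable (fun p : (Fin r → ℝ) × X =>
          a n p.2 * ∏ i ∈ s, g i (φ i (p.1 i * (P i).eval (n : ℝ)) ((S i ^ n) p.2))) := by
        intro n
        refine ((ha n).comp measurable_snd).mul (Finset.measurable_fun_prod _ fun i _ => ?_)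
        obtain ⟨L', hL', hgi⟩ := hg i
        refine hgi.meas.comp ((hφ i).meas.comp (Measurable.prodMk ?_ ((hSm i n).comp measurable_snd)))
        exact ((measurable_pi_apply i).comp measurable_fst).mul_const _
      have h1 := parC (μ := μ) j (hP j) (hφ j) (hS j) hgj hL (hgs j) (hgsb j) (hlim j)
        (A := fun n β x => a n x * ∏ i ∈ s, g i (φ i (β i * (P i).eval (n : ℝ)) ((S i ^ n) x))) hm
        (C := |C| * |B| ^ s.card) (fun n β x => by
          rw [norm_mul, norm_prod]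
          refine mul_le_mul ((ha1 n x).trans (le_abs_self C)) ?_ (Finset.prod_nonneg fun i _ => norm_nonneg _)
            (abs_nonneg _)
          refine (Finset.prod_le_prod (g := fun _ => |B|) (fun i _ => norm_nonneg _) fun i _ => ?_).trans_eq
            (Finset.prod_const _)
          obtain ⟨L', hL', hgi⟩ := hg i
          exact (hgi.bd _).trans (le_abs_self B)) (fun n β t x => by
          show a n x * _ = a n x * _
          congr 1
          refine Finset.prod_congr rfl fun i hi => ?_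
          have hij : i ≠ j := fun h => hj (h ▸ hi)
          rw [Function.update_of_ne hij])
      have h2 := ih (fun n x => a n x * gs j ((S j ^ n) x))
        (fun n => (ha n).mul ((hgs j).comp (hSm j n))) (|C| * |B|) (fun n x => by
          rw [norm_mul]
          exact mul_le_mul ((ha1 n x).trans (le_abs_self C)) ((hgsb j _).trans (le_abs_self B))
            (norm_nonneg _) (abs_nonneg _))
      filter_upwards [h1, h2] with p hp1 hp2
      have h3 := hp1.add hp2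
      rw [add_zero] at h3
      refine h3.congr fun N => ?_
      rw [← mul_add, ← Finset.sum_add_distrib]
      congr 1
      refine Finset.sum_congr rfl fun n _ => ?_
      rw [Finset.prod_insert hj, Finset.prod_insert hj]
      ring
  exact key Finset.univ a ha C ha1

end Pool.Agent.GTC
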