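import Mathlib
import Pool.Agent.GTC.TDefs
import Pool.Agent.GTC.TupC
import Pool.Agent.GTC.MaxC
import Pool.Agent.GTC.Inv
import Pool.Agent.GTC.ExtC
import Pool.Agent.GT.Sep
import Pool.Agent.GT.Lim

/-!
# GTC/MainC: generic times with commuting transformations, main theorem
-/

namespace Pool.Agent.GTC

open MeasureTheory Filter Topology Pool.Agent.GT

/-- **generic times** (measurable bounded weights) -/
theorem mainC {r : ℕ} {P : Fin r → Polynomial ℝ} (hP : ∀ i, 1 ≤ (P i).natDegree) {X : Type*} [MeasurableSpace X]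
    {μ : Measure X} [IsFiniteMeasure μ] [IsSeparable μ] {φ : Fin r → ℝ → X → X} (hφ : ∀ i, IsFlow μ (φ i))
    {S : Fin r → Equiv.Perm X} (hS : ∀ i, Comm μ (φ i) (S i))
    {a : ℤ → X → ℂ} (ha : ∀ n, Measurable (a n)) {C : ℝ} (ha1 : ∀ n x, ‖a n x‖ ≤ C) :
    ∀ᵐ β ∂(volume : Measure (Fin r → ℝ)), ∀ h : Fin r → X → ℂ, (∀ i, MemLp (h i) ⊤ μ) →
      ∀ᵐ x ∂μ, Tendsto (fun N : ℕ => ((2 * N + 1 : ℕ) : ℂ)⁻¹ * ∑ n ∈ Finset.Icc (-(N : ℤ)) N, a n x *
        (∏ i, h i (φ i (β i * (P i).eval (n : ℝ)) ((S i ^ n) x)) -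
          ∏ i, (μ[h i | inv (φ i)]) ((S i ^ n) x))) atTop (𝓝 0) := by
  choose D hD hdense using fun (i : Fin r) (B : ℕ) => sep (hφ i) (B := (B : ℝ)) (Nat.cast_nonneg B)
  choose L hL hN using hD
  choose Ds hDs hDsb hDlim using fun (i : Fin r) (B m : ℕ) => lim_exists (hφ i) (hN i B m) (hL i B m)
  have hT : ∀ᵐ β ∂(volume : Measure (Fin r → ℝ)), ∀ (B : ℕ) (m : Fin r → ℕ), ∀ᵐ x ∂μ,
      Tendsto (fun N : ℕ => ((2 * N + 1 : ℕ) : ℂ)⁻¹ * ∑ n ∈ Finset.Icc (-(N : ℤ)) N, a n x *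
        (∏ i, D i B (m i) (φ i (β i * (P i).eval (n : ℝ)) ((S i ^ n) x)) -
          ∏ i, Ds i B (m i) ((S i ^ n) x))) atTop (𝓝 0) := by
    rw [ae_all_iff]
    intro B
    rw [ae_all_iff]
    intro m
    exact Measure.ae_ae_of_ae_prod (tupC hP hφ hS (g := fun i => D i B (m i)) (B := (B : ℝ))
      (fun i => ⟨L i B (m i), hL i B (m i), hN i B (m i)⟩) (gs := fun i => Ds i B (m i))
      (fun i => hDs i B (m i)) (fun i => hDsb i B (m i)) (fun i => hDlim i B (m i)) ha ha1)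
  filter_upwards [hT] with β hβ
  intro h hh
  have hmp : ∀ i (t : ℝ) (n : ℤ), MeasurePreserving (fun x => φ i t ((S i ^ n) x)) μ μ := fun i t n =>
    ((hφ i).mp t).comp (zpow_mp (hS i) n)
  exact extC (T := fun i n x => φ i (β i * (P i).eval (n : ℝ)) ((S i ^ n) x)) (R := fun i n x => (S i ^ n) x)
    (fun i n => hmp i _ n) (fun i n => zpow_mp (hS i) n) (fun i => maxC (hφ i) (hS i) (β i) (P i))
    (fun i => by
      obtain ⟨C, hC⟩ := maxC (hφ i) (hS i) 0 (P i)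
      refine ⟨C, fun v hv => ?_⟩
      have := hC v hv
      simpa only [zero_mul, (hφ i).zero] using this)
    (fun i => inv_le (φ i)) ha1 (fun i B m => (hN i B m).meas) (fun i B m => (hN i B m).bd) hDs hDsb
    (fun i B m => lim_inv (hφ i) (hN i B m) (hL i B m) (hDlim i B m)) (fun i B => hdense i B) hβ h hh

end Pool.Agent.GTC
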